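import Pool.Agent.Q59.TW.Split

/-!
# Hodge characters which are doubles up to elements of order three and four and up to pairs
-/

namespace Pool.Agent.Q59.TW

open Finset Pool.Agent.H916R2 Pool.Agent.Q59.FS Pool.Agent.Q59.RL

set_option linter.unusedSectionVars false

variable {m : ℕ} [NeZero m]

/-- a double up to elements of order three and four, each with the element of order two, and up to
pairs -/
def Shape (s : Multiset (ZMod m)) : Prop :=
  ∃ u R H Q : Multiset (ZMod m), s = u + u + R + H + (Q + Q.map fun a => -a) ∧ (0 : ZMod m) ∉ u ∧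
    (∀ a ∈ R, addOrderOf a = 3 ∨ addOrderOf a = 4) ∧ (∀ a ∈ H, a ≠ 0 ∧ a + a = 0) ∧
    H.card = R.card ∧ (0 : ZMod m) ∉ Q

lemma Shape.zero : Shape (0 : Multiset (ZMod m)) := ⟨0, 0, 0, 0, by simp⟩

lemma Shape.add {s t : Multiset (ZMod m)} (hs : Shape s) (ht : Shape t) : Shape (s + t) := by
  obtain ⟨u, R, H, Q, e, h1, h2, h3, h4, h5⟩ := hs
  obtain ⟨u', R', H', Q', e', h1', h2', h3', h4', h5'⟩ := ht
  refine ⟨u + u', R + R', H + H', Q + Q', ?_, ?_, ?_, ?_, ?_, ?_⟩
  · rw [e, e', Multiset.map_add]
    abel
  · intro h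
    rcases Multiset.mem_add.mp h with h | h
    · exact h1 h
    · exact h1' h
  · intro a h
    rcases Multiset.mem_add.mp h with h | h
    · exact h2 a h
    · exact h2' a h
  · intro a h
    rcases Multiset.mem_add.mp h with h | h
    · exact h3 a h
    · exact h3' a h
  · rw [Multiset.card_add, Multiset.card_add, h4, h4']
  · intro h
    rcases Multiset.mem_add.mp h with h | h
    · exact h5 h
    · exact h5' h

lemma Shape.sum {ι : Type*} (S : Finset ι) (f : ι → Multiset (ZMod m))
    (h : ∀ i ∈ S, Shape (f i)) : Shape (∑ i ∈ S, f i) := by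
  classical
  induction S using Finset.induction_on with
  | empty => rw [sum_empty]; exact Shape.zero
  | insert i S hi ih =>
    rw [sum_insert hi]
    exact (h i (mem_insert_self i S)).add (ih fun j hj => h j (mem_insert_of_mem hj))

lemma Shape.double {u : Multiset (ZMod m)} (h : (0 : ZMod m) ∉ u) : Shape (u + u) :=
  ⟨u, 0, 0, 0, by simp, h, by simp, by simp, rfl, by simp⟩

lemma Shape.pairs {Q : Multiset (ZMod m)} (h : (0 : ZMod m) ∉ Q) :
    Shape (Q + Q.map fun a => -a) :=
  ⟨0, 0, 0, Q, by simp, by simp, by simp, by simp, rfl, h⟩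

lemma Shape.special {r h : ZMod m} (hr : addOrderOf r = 3 ∨ addOrderOf r = 4) (h0 : h ≠ 0)
    (h2 : h + h = 0) : Shape ({r} + {h} : Multiset (ZMod m)) :=
  ⟨0, {r}, {h}, 0, by simp, by simp, fun a ha => by rw [Multiset.mem_singleton.mp ha]; exact hr,
    fun a ha => by rw [Multiset.mem_singleton.mp ha]; exact ⟨h0, h2⟩, rfl, by simp⟩

/-- the inflation of a shape -/
lemma Shape.map_iota {N k : ℕ} [NeZero N] (hk : k * N = m) {s : Multiset (ZMod N)}
    (hs : Shape s) : Shape (s.map fun a => (iota k a : ZMod m)) := by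
  obtain ⟨u, R, H, Q, e, h1, h2, h3, h4, h5⟩ := hs
  refine ⟨u.map (iota k), R.map (iota k), H.map (iota k), Q.map (iota k), ?_, ?_, ?_, ?_, ?_, ?_⟩
  · rw [e]
    simp only [Multiset.map_add, Multiset.map_map, Function.comp_apply]
    congr 2
    exact Multiset.map_congr rfl fun a _ => iota_neg hk a
  · intro h
    obtain ⟨a, ha, ha0⟩ := Multiset.mem_map.mp h
    exact h1 (iota_eq_zero hk ha0 ▸ ha)
  · intro b hb
    obtain ⟨a, ha, rfl⟩ := Multiset.mem_map.mp hb
    rw [addOrderOf_iota hk]
    exact h2 a ha
  · intro b hb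
    obtain ⟨a, ha, rfl⟩ := Multiset.mem_map.mp hb
    refine ⟨fun h => (h3 a ha).1 (iota_eq_zero hk h), ?_⟩
    rw [← iota_add hk, (h3 a ha).2, iota_zero]
  · rw [Multiset.card_map, Multiset.card_map, h4]
  · intro h
    obtain ⟨a, ha, ha0⟩ := Multiset.mem_map.mp h
    exact h5 (iota_eq_zero hk ha0 ▸ ha)

/-- pairs are generated -/
lemma generated_pairs {B : Multiset (ZMod m) → Prop} {u : Multiset (ZMod m)}
    (hu : u = 0 ∨ Generated m B u) (Q : Multiset (ZMod m)) (hQ : (0 : ZMod m) ∉ Q) :
    u + (Q + Q.map fun a => -a) = 0 ∨ Generated m B (u + (Q + Q.map fun a => -a)) := by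
  induction Q using Multiset.induction_on with
  | empty => simpa using hu
  | cons a Q ih =>
    have ha : a ≠ 0 := fun h => hQ (by rw [h]; exact Multiset.mem_cons_self _ _)
    have e : u + (a ::ₘ Q + (a ::ₘ Q).map fun a => -a) =
        ({a, -a} : Multiset (ZMod m)) + (u + (Q + Q.map fun a => -a)) := by
      rw [Multiset.map_cons, Multiset.insert_eq_cons]
      simp only [← Multiset.singleton_add]
      abel
    right
    rw [e]
    rcases ih fun h => hQ (Multiset.mem_cons_of_mem h) with h | h
    · rw [h, add_zero]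
      exact Generated.pair a ha
    · exact Generated.join _ _ (Generated.pair a ha) h

/-- elements of order two -/
lemma halves {H : Multiset (ZMod m)} (hH : ∀ a ∈ H, a ≠ 0 ∧ a + a = 0) {k : ℕ}
    (hk : H.card = k + k) : ∃ H' : Multiset (ZMod m), H = H' + H' ∧ (0 : ZMod m) ∉ H' := by
  by_cases h0 : H = 0
  · exact ⟨0, by simp [h0], by simp⟩
  obtain ⟨h, hh⟩ := Multiset.card_pos_iff_exists_mem.mp (Multiset.card_pos.mpr h0)
  have h1 : ∀ a ∈ H, a = h := by
    intro a ha
    have h2 : 2 ∣ m := by
      have h3 : 2 • h = 0 := by rw [two_nsmul]; exact (hH h hh).2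
      have h4 := addOrderOf_dvd_of_nsmul_eq_zero h3
      have h5 : addOrderOf h = 2 := by
        rcases (Nat.dvd_prime Nat.prime_two).mp h4 with h6 | h6
        · exact absurd (AddMonoid.addOrderOf_eq_one_iff.mp h6) (hH h hh).1
        · exact h6
      exact h5 ▸ order_dvd h
    obtain ⟨e, he⟩ := h2
    have key : ∀ b ∈ H, b = (e : ZMod m) := by
      intro b hb
      obtain ⟨r, hr, hbr⟩ := killed_eq (n := 2) two_pos he.symm (a := b) (by
        have := (hH b hb).2
        push_cast
        linear_combination this)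
      interval_cases r
      · rw [Nat.cast_zero, zero_mul] at hbr
        exact absurd hbr (hH b hb).1
      · rw [hbr, Nat.cast_one, one_mul]
    rw [key a ha, key h hh]
  refine ⟨Multiset.replicate k h, ?_, fun h2 => ?_⟩
  · rw [← Multiset.replicate_add, ← hk]
    exact Multiset.eq_replicate_card.mpr h1
  · exact (hH h hh).1 (Multiset.eq_of_mem_replicate h2).symm

/-- **Hodge characters of this shape are generated.** -/
theorem Shape.generated {s : Multiset (ZMod m)} (h : Shape s) (hs : IsHodge m s) (hne : s ≠ 0)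
    (B : Multiset (ZMod m) → Prop) : Generated m B s := by
  obtain ⟨u, R, H, Q, e, h1, h2, h3, h4, h5⟩ := h
  have hpair : ∀ (t : (ZMod m)ˣ) (P : Multiset (ZMod m)),
      ((P + P.map fun a => -a).map fun a => saw ((t : ZMod m) * a)).sum = 0 := by
    intro t P
    rw [Multiset.map_add, Multiset.sum_add, Multiset.map_map]
    have : (P.map ((fun a => saw ((t : ZMod m) * a)) ∘ fun a => -a)).sum =
        (P.map fun a => - saw ((t : ZMod m) * a)).sum := by
      congr 1
      refine Multiset.map_congr rfl fun a _ => ?_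
      simp only [Function.comp_apply, mul_neg, saw_neg]
    rw [this, Multiset.sum_map_neg, add_neg_cancel]
  have hhalf : ∀ t : (ZMod m)ˣ, (H.map fun a => saw ((t : ZMod m) * a)).sum = 0 := by
    intro t
    have : (H.map fun a => saw ((t : ZMod m) * a)) = H.map fun _ => (0 : ℤ) :=
      Multiset.map_congr rfl fun a ha => saw_half (by rw [← mul_add, (h3 a ha).2, mul_zero])
    rw [this]
    simp
  have hrel : Rel fun a => (((u + u + R).count a : ℕ) : ℤ) := by
    intro t
    have h6 := sum_count (u + u + R) (fun a => saw ((t : ZMod m) * a))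
    have h7 := hs.saw_sum t
    rw [e, Multiset.map_add, Multiset.sum_add, hpair, add_zero, Multiset.map_add,
      Multiset.sum_add, hhalf, add_zero] at h7
    rw [h7] at h6
    simpa using h6
  obtain ⟨hev3, hev4⟩ := parity h2 hrel
  obtain ⟨T, P, eR, hT, hP⟩ := split h2 hev3 hev4
  have hRcard : ∃ k, R.card = k + k := by
    have h6 : R.card = (R.filter fun a => addOrderOf a = 3).card +
        (R.filter fun a => addOrderOf a = 4).card := by
      have h7 := Multiset.filter_add_not (fun a : ZMod m => addOrderOf a = 3) R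
      have h8 : (R.filter fun a => ¬ addOrderOf a = 3) = R.filter fun a => addOrderOf a = 4 := by
        refine Multiset.filter_congr fun a ha => ?_
        rcases h2 a ha with h | h
        · simp [h]
        · simp [h]
      rw [← h8, ← Multiset.card_add, h7]
    rw [h6]
    exact (hev3.add hev4)
  obtain ⟨k, hk⟩ := hRcard
  obtain ⟨H', eH, hH'⟩ := halves h3 (k := k) (by rw [h4, hk])
  set v := u + T + H' with hv
  have etot : s = (v + v) + ((Q + P) + (Q + P).map fun a => -a) := by
    rw [e, eR, eH, hv, Multiset.map_add]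
    abel
  have h0v : (0 : ZMod m) ∉ v := by
    intro h
    rcases Multiset.mem_add.mp h with h | h
    · rcases Multiset.mem_add.mp h with h | h
      · exact h1 h
      · exact hT 0 h rfl
    · exact hH' h
  have h0P : (0 : ZMod m) ∉ Q + P := by
    intro h
    rcases Multiset.mem_add.mp h with h | h
    · exact h5 h
    · exact hP 0 h rfl
  have hv0 : v + v = 0 ∨ Generated m B (v + v) := by
    by_cases hv1 : v = 0
    · left; rw [hv1, add_zero]
    right
    refine double_generated (isHodge_of_saw ?_ ⟨v.card, by rw [Multiset.card_add]⟩ ?_) hv1 B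
    · intro h
      rcases Multiset.mem_add.mp h with h | h
      · exact h0v h
      · exact h0v h
    · intro t
      have h7 := hs.saw_sum t
      rw [etot, Multiset.map_add, Multiset.sum_add, hpair, add_zero] at h7
      exact h7
  rw [etot] at hne ⊢
  exact (generated_pairs hv0 _ h0P).resolve_left hne

end Pool.Agent.Q59.TW
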