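import Pool.Agent.Q59.RL.Top

/-!
# Extension of partial distributions (no parity condition)
-/

namespace Pool.Agent.Q59.TW

open Finset Pool.Agent.H916R2 Pool.Agent.Q59.FS

/-- distributions with value zero at zero -/
structure Dist0 {m : ℕ} {Q : Type*} [AddCommGroup Q] (c : ZMod m → Q) : Prop where
  zero : c 0 = 0
  dist : ∀ p d : ℕ, p.Prime → p * d = m → ∀ a,
    ∑ i ∈ range p, c (a + (i : ZMod m) * (d : ZMod m)) = c ((p : ZMod m) * a)

/-- partial distributions on the `M`-torsion, supported on orders divisible by `D` -/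
structure PD0 {m : ℕ} (M D : ℕ) (φ : ZMod m → ℚ) : Prop where
  supp : ∀ a, φ a ≠ 0 → (M : ZMod m) * a = 0
  ord : ∀ a, φ a ≠ 0 → D ∣ addOrderOf a
  dist : ∀ p e : ℕ, p.Prime → p * e = m → p ∣ M → ∀ a, (M : ZMod m) * a = 0 →
    ∑ i ∈ range p, φ (a + (i : ZMod m) * (e : ZMod m)) = φ ((p : ZMod m) * a)

variable {m : ℕ} [NeZero m] {M D : ℕ} {φ : ZMod m → ℚ}

/-- extension, first case -/
lemma PD0.ext_dvd (h : PD0 M D φ) {ℓ : ℕ} (hℓ : ℓ.Prime) (hdvd : ℓ ∣ M) :
    ∃ φ' : ZMod m → ℚ, PD0 (M * ℓ) D φ' ∧ ∀ a, (M : ZMod m) * a = 0 → φ' a = φ a := by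
  classical
  set φ' : ZMod m → ℚ := fun a => if (M : ZMod m) * a = 0 then φ a else
    if ((M * ℓ : ℕ) : ZMod m) * a = 0 then φ ((ℓ : ZMod m) * a) / ℓ else 0 with hφ'
  have v1 : ∀ a, (M : ZMod m) * a = 0 → φ' a = φ a := fun a ha => by
    simp only [hφ']; rw [if_pos ha]
  have v2 : ∀ a, ¬ (M : ZMod m) * a = 0 → ((M * ℓ : ℕ) : ZMod m) * a = 0 →
      φ' a = φ ((ℓ : ZMod m) * a) / ℓ := fun a h1 h2 => by
    simp only [hφ']; rw [if_neg h1, if_pos h2]
  have v3 : ∀ a, ¬ ((M * ℓ : ℕ) : ZMod m) * a = 0 → φ' a = 0 := fun a h2 => by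
    have h1 : ¬ (M : ZMod m) * a = 0 := fun h0 => h2 (by
      push_cast
      linear_combination (ℓ : ZMod m) * h0)
    simp only [hφ']; rw [if_neg h1, if_neg h2]
  have hℓ0 : (ℓ : ℚ) ≠ 0 := by exact_mod_cast hℓ.ne_zero
  refine ⟨φ', ⟨?_, ?_, ?_⟩, v1⟩
  · intro a ha
    by_contra hcon
    exact ha (v3 a hcon)
  · intro a ha
    by_cases h1 : (M : ZMod m) * a = 0
    · rw [v1 a h1] at ha
      exact h.ord a ha
    · by_cases h2 : ((M * ℓ : ℕ) : ZMod m) * a = 0
      · rw [v2 a h1 h2] at ha
        have h3 : φ ((ℓ : ZMod m) * a) ≠ 0 := fun h0 => ha (by rw [h0, zero_div])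
        exact (h.ord _ h3).trans (order_mul_dvd ℓ a)
      · exact absurd (v3 a h2) ha
  · intro p e hp hpe hpM a ha
    have hpM' : p ∣ M := by
      rcases (Nat.Prime.dvd_mul hp).mp hpM with h0 | h0
      · exact h0
      · exact ((Nat.prime_dvd_prime_iff_eq hp hℓ).mp h0) ▸ hdvd
    have hMe : (M : ZMod m) * (e : ZMod m) = 0 := dvd_mul_zero hpe hpM'
    have hshift : ∀ i : ℕ, (M : ZMod m) * (a + (i : ZMod m) * (e : ZMod m)) = (M : ZMod m) * a := by
      intro i
      linear_combination (i : ZMod m) * hMe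
    by_cases h1 : (M : ZMod m) * a = 0
    · rw [v1 ((p : ZMod m) * a) (by linear_combination (p : ZMod m) * h1),
        ← h.dist p e hp hpe hpM' a h1]
      exact sum_congr rfl fun i _ => v1 _ (by rw [hshift, h1])
    · have ht : ∀ i ∈ range p, φ' (a + (i : ZMod m) * (e : ZMod m)) =
          φ ((ℓ : ZMod m) * (a + (i : ZMod m) * (e : ZMod m))) / ℓ := by
        intro i _
        refine v2 _ (by rw [hshift]; exact h1) ?_
        have h0 : ((M * ℓ : ℕ) : ZMod m) * (a + (i : ZMod m) * (e : ZMod m)) =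
            ((M * ℓ : ℕ) : ZMod m) * a := by
          push_cast
          linear_combination ((i : ZMod m) * ℓ) * hMe
        rw [h0, ha]
      rw [sum_congr rfl ht, ← sum_div]
      have hMℓa : (M : ZMod m) * ((ℓ : ZMod m) * a) = 0 := by
        have := ha
        push_cast at this
        linear_combination this
      by_cases hpl : p = ℓ
      · subst hpl
        have hc : ∀ i ∈ range p, φ ((p : ZMod m) * (a + (i : ZMod m) * (e : ZMod m))) =
            φ ((p : ZMod m) * a) := by
          intro i _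
          congr 1
          linear_combination (i : ZMod m) * mul_cast_zero hpe
        rw [sum_congr rfl hc, sum_const, card_range, nsmul_eq_mul, mul_div_cancel_left₀ _ hℓ0,
          v1 _ hMℓa]
      · have hcop : ℓ.Coprime p := (Nat.coprime_primes hℓ hp).mpr (Ne.symm hpl)
        have h3 : ∑ i ∈ range p, φ ((ℓ : ZMod m) * (a + (i : ZMod m) * (e : ZMod m))) =
            φ ((p : ZMod m) * ((ℓ : ZMod m) * a)) := by
          rw [← h.dist p e hp hpe hpM' _ hMℓa, ← coset_sum_coprime φ hpe hcop]
          exact sum_congr rfl fun i _ => by rw [mul_add]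
        have h4 : ¬ (M : ZMod m) * ((p : ZMod m) * a) = 0 := by
          intro h0
          apply h1
          have hA : ((M * ℓ : ℕ) : ZMod m) * a = 0 := ha
          have hB : ((M * p : ℕ) : ZMod m) * a = 0 := by
            push_cast
            linear_combination h0
          have := killed_gcd hA hB
          rwa [Nat.gcd_mul_left, hcop.gcd_eq_one, mul_one] at this
        rw [h3, v2 _ h4 (by
          have := ha
          push_cast at this ⊢
          linear_combination (p : ZMod m) * this)]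
        congr 2
        ring

/-- extension, second case -/
lemma PD0.ext_not_dvd (h : PD0 M D φ) {ℓ : ℕ} (hℓ : ℓ.Prime) (hdvd : ¬ ℓ ∣ M) (hMm : M * ℓ ∣ m) :
    ∃ φ' : ZMod m → ℚ, PD0 (M * ℓ) D φ' ∧ ∀ a, (M : ZMod m) * a = 0 → φ' a = φ a := by
  classical
  have hM0 : M ≠ 0 := by rintro rfl; simp at hdvd
  have hcopM : M.Coprime ℓ := Nat.coprime_comm.mp ((Nat.Prime.coprime_iff_not_dvd hℓ).mpr hdvd)
  obtain ⟨e0, he1, he2⟩ : ∃ e0 : ℕ, e0 ≡ 1 [MOD M] ∧ e0 ≡ 0 [MOD ℓ] :=
    ⟨_, (Nat.chineseRemainder hcopM 1 0).2⟩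
  have he2' : ℓ ∣ e0 := (Nat.modEq_zero_iff_dvd).mp he2
  have hmul : ∀ b : ZMod m, (M : ZMod m) * b = 0 → (e0 : ZMod m) * b = b := by
    intro b hb
    have h1 : (M : ℤ) ∣ (1 : ℤ) - e0 := by
      have := (Nat.modEq_iff_dvd).mp he1
      exact_mod_cast this
    obtain ⟨k, hk⟩ := h1
    have h2 : (1 : ZMod m) - (e0 : ZMod m) = (M : ZMod m) * (k : ZMod m) := by
      have := congrArg (fun z : ℤ => (z : ZMod m)) hk
      push_cast at this
      exact this
    linear_combination -b * h2 - (k : ZMod m) * hb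
  set φ' : ZMod m → ℚ := fun a => if (M : ZMod m) * a = 0 then φ a else
    if ((M * ℓ : ℕ) : ZMod m) * a = 0 then
      (φ ((ℓ : ZMod m) * ((e0 : ZMod m) * a)) - φ ((e0 : ZMod m) * a)) / (ℓ - 1) else 0 with hφ'
  have v1 : ∀ a, (M : ZMod m) * a = 0 → φ' a = φ a := fun a ha => by
    simp only [hφ']; rw [if_pos ha]
  have v2 : ∀ a, ¬ (M : ZMod m) * a = 0 → ((M * ℓ : ℕ) : ZMod m) * a = 0 →
      φ' a = (φ ((ℓ : ZMod m) * ((e0 : ZMod m) * a)) - φ ((e0 : ZMod m) * a)) / (ℓ - 1) :=
    fun a h1 h2 => by simp only [hφ']; rw [if_neg h1, if_pos h2]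
  have v3 : ∀ a, ¬ ((M * ℓ : ℕ) : ZMod m) * a = 0 → φ' a = 0 := fun a h2 => by
    have h1 : ¬ (M : ZMod m) * a = 0 := fun h0 => h2 (by
      push_cast
      linear_combination (ℓ : ZMod m) * h0)
    simp only [hφ']; rw [if_neg h1, if_neg h2]
  have hℓ1 : (ℓ : ℚ) - 1 ≠ 0 := by
    have : (1 : ℚ) < ℓ := by exact_mod_cast hℓ.one_lt
    linarith
  refine ⟨φ', ⟨?_, ?_, ?_⟩, v1⟩
  · intro a ha
    by_contra hcon
    exact ha (v3 a hcon)
  · intro a ha
    by_cases h1 : (M : ZMod m) * a = 0
    · rw [v1 a h1] at ha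
      exact h.ord a ha
    · by_cases h2 : ((M * ℓ : ℕ) : ZMod m) * a = 0
      · rw [v2 a h1 h2] at ha
        by_cases h3 : φ ((e0 : ZMod m) * a) = 0
        · have h4 : φ ((ℓ : ZMod m) * ((e0 : ZMod m) * a)) ≠ 0 := by
            intro h0
            apply ha
            rw [h0, h3, sub_zero, zero_div]
          exact (h.ord _ h4).trans ((order_mul_dvd ℓ _).trans (order_mul_dvd e0 a))
        · exact (h.ord _ h3).trans (order_mul_dvd e0 a)
      · exact absurd (v3 a h2) ha
  · intro p e hp hpe hpM a ha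
    have ha' : (M : ZMod m) * ((ℓ : ZMod m) * a) = 0 := by
      have := ha
      push_cast at this
      linear_combination this
    have hea : (M : ZMod m) * ((e0 : ZMod m) * a) = 0 := by
      obtain ⟨k, hk⟩ := he2'
      rw [hk]
      push_cast
      linear_combination (k : ZMod m) * ha'
    by_cases hpl : p = ℓ
    · subst hpl
      -- the case of the new prime
      have hkill : (p : ZMod m) * ((e0 : ZMod m) * a - a) = 0 := by
        have := hmul _ ha'
        linear_combination this
      obtain ⟨j, hj, hj'⟩ := exists_mul_of_killed hpe hkill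
      have hj'' : (e0 : ZMod m) * a = a + (j : ZMod m) * (e : ZMod m) := by
        linear_combination hj'
      have he0e : (e0 : ZMod m) * (e : ZMod m) = 0 := dvd_mul_zero hpe he2'
      have h5 : ∀ i ∈ range p, i ≠ j → φ' (a + (i : ZMod m) * (e : ZMod m)) =
          (φ ((p : ZMod m) * ((e0 : ZMod m) * a)) - φ ((e0 : ZMod m) * a)) / (p - 1) := by
        intro i hi hij
        have hnz : ¬ (M : ZMod m) * (a + (i : ZMod m) * (e : ZMod m)) = 0 := by
          intro h0
          have h6 : (M : ZMod m) * ((i : ZMod m) * (e : ZMod m)) =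
              (M : ZMod m) * ((j : ZMod m) * (e : ZMod m)) := by
            have := hea
            rw [hj''] at this
            linear_combination h0 - this
          have h7 : ((M * i * e : ℕ) : ZMod m) = ((M * j * e : ℕ) : ZMod m) := by
            push_cast
            linear_combination h6
          rw [ZMod.natCast_eq_natCast_iff] at h7
          have he : 0 < e := Nat.pos_of_ne_zero (by
            rintro rfl; rw [mul_zero] at hpe; exact NeZero.ne m hpe.symm)
          have h8 : M * i ≡ M * j [MOD p] := by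
            have h9 : M * i * e ≡ M * j * e [MOD p * e] := by rw [hpe]; exact h7
            exact Nat.ModEq.mul_right_cancel' he.ne' h9
          have h9 := Nat.ModEq.cancel_left_of_coprime (Nat.coprime_comm.mp hcopM) h8
          have h10 : i % p = j % p := h9
          rw [Nat.mod_eq_of_lt (mem_range.mp hi), Nat.mod_eq_of_lt hj] at h10
          exact hij h10
        have hz : ((M * p : ℕ) : ZMod m) * (a + (i : ZMod m) * (e : ZMod m)) = 0 := by
          have h0 := mul_cast_zero hpe
          have := ha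
          push_cast at this ⊢
          linear_combination this + ((M : ZMod m) * i) * h0
        have e1 : (e0 : ZMod m) * (a + (i : ZMod m) * (e : ZMod m)) = (e0 : ZMod m) * a := by
          linear_combination (i : ZMod m) * he0e
        rw [v2 _ hnz hz, e1]
      have h6 : φ' (a + (j : ZMod m) * (e : ZMod m)) = φ ((e0 : ZMod m) * a) := by
        rw [← hj'']
        exact v1 _ hea
      rw [← add_sum_erase _ _ (mem_range.mpr hj), h6,
        sum_congr rfl (fun i hi => h5 i (mem_of_mem_erase hi) (ne_of_mem_erase hi)), sum_const,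
        card_erase_of_mem (mem_range.mpr hj), card_range, nsmul_eq_mul,
        Nat.cast_sub hp.one_lt.le, Nat.cast_one, mul_div_cancel₀ _ hℓ1, v1 _ ha']
      have e2 : (p : ZMod m) * ((e0 : ZMod m) * a) = (p : ZMod m) * a := by
        linear_combination hkill
      rw [e2]
      ring
    · -- an old prime
      have hpM' : p ∣ M := by
        rcases (Nat.Prime.dvd_mul hp).mp hpM with h0 | h0
        · exact h0
        · exact absurd ((Nat.prime_dvd_prime_iff_eq hp hℓ).mp h0) hpl
      have hMe : (M : ZMod m) * (e : ZMod m) = 0 := dvd_mul_zero hpe hpM'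
      have hshift : ∀ i : ℕ, (M : ZMod m) * (a + (i : ZMod m) * (e : ZMod m)) =
          (M : ZMod m) * a := by
        intro i
        linear_combination (i : ZMod m) * hMe
      by_cases h1 : (M : ZMod m) * a = 0
      · rw [v1 ((p : ZMod m) * a) (by linear_combination (p : ZMod m) * h1),
          ← h.dist p e hp hpe hpM' a h1]
        exact sum_congr rfl fun i _ => v1 _ (by rw [hshift, h1])
      · have hcop : ℓ.Coprime p := (Nat.coprime_primes hℓ hp).mpr (Ne.symm hpl)
        have he0e : (e0 : ZMod m) * (e : ZMod m) = e := hmul _ hMe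
        have ht : ∀ i ∈ range p, φ' (a + (i : ZMod m) * (e : ZMod m)) =
            (φ ((ℓ : ZMod m) * ((e0 : ZMod m) * a) + (ℓ : ZMod m) * ((i : ZMod m) * (e : ZMod m))) -
              φ ((e0 : ZMod m) * a + (i : ZMod m) * (e : ZMod m))) / (ℓ - 1) := by
          intro i _
          have h0 : ((M * ℓ : ℕ) : ZMod m) * (a + (i : ZMod m) * (e : ZMod m)) = 0 := by
            have := ha
            push_cast at this ⊢
            linear_combination this + ((i : ZMod m) * ℓ) * hMe
          rw [v2 _ (by rw [hshift]; exact h1) h0]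
          congr 3
          · linear_combination ((ℓ : ZMod m) * i) * he0e
          · linear_combination (i : ZMod m) * he0e
        have hMℓe : (M : ZMod m) * ((ℓ : ZMod m) * ((e0 : ZMod m) * a)) = 0 := by
          linear_combination (ℓ : ZMod m) * hea
        have h4 : ¬ (M : ZMod m) * ((p : ZMod m) * a) = 0 := by
          intro h0
          apply h1
          have hA : ((M * ℓ : ℕ) : ZMod m) * a = 0 := ha
          have hB : ((M * p : ℕ) : ZMod m) * a = 0 := by
            push_cast
            linear_combination h0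
          have := killed_gcd hA hB
          rwa [Nat.gcd_mul_left, hcop.gcd_eq_one, mul_one] at this
        rw [sum_congr rfl ht, ← sum_div, sum_sub_distrib,
          coset_sum_coprime φ hpe hcop, h.dist p e hp hpe hpM' _ hMℓe,
          h.dist p e hp hpe hpM' _ hea, v2 _ h4 (by
            have := ha
            push_cast at this ⊢
            linear_combination (p : ZMod m) * this)]
        congr 3
        · ring
        · ring

/-- full extension -/
theorem PD0.extend {M : ℕ} (hM : M ∣ m) : ∀ {φ : ZMod m → ℚ}, PD0 M D φ →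
    ∃ φ' : ZMod m → ℚ, PD0 m D φ' ∧ ∀ a, (M : ZMod m) * a = 0 → φ' a = φ a := by
  obtain ⟨k, hk⟩ := hM
  induction k using Nat.strong_induction_on generalizing M with
  | _ k ih =>
    intro φ h
    by_cases h1 : k = 1
    · subst h1
      rw [mul_one] at hk
      subst hk
      exact ⟨φ, h, fun _ _ => rfl⟩
    · have hk0 : k ≠ 0 := by rintro rfl; rw [mul_zero] at hk; exact NeZero.ne m hk
      obtain ⟨ℓ, hℓ, k', hk'⟩ := Nat.exists_prime_and_dvd h1
      have hMm : M * ℓ ∣ m := ⟨k', by rw [hk, hk', mul_assoc]⟩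
      have hstep : ∃ φ' : ZMod m → ℚ, PD0 (M * ℓ) D φ' ∧ ∀ a, (M : ZMod m) * a = 0 → φ' a = φ a := by
        by_cases h2 : ℓ ∣ M
        · exact h.ext_dvd hℓ h2
        · exact h.ext_not_dvd hℓ h2 hMm
      obtain ⟨φ1, hφ1, hφ1'⟩ := hstep
      have hk'0 : 0 < k' := Nat.pos_of_ne_zero (by rintro rfl; rw [mul_zero] at hk'; exact hk0 hk')
      obtain ⟨φ2, hφ2, hφ2'⟩ := ih k' (by
        rw [hk']; exact lt_mul_of_one_lt_left hk'0 hℓ.one_lt) (M := M * ℓ)
        (by rw [hk, hk', mul_assoc]) hφ1
      refine ⟨φ2, hφ2, fun a ha => ?_⟩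
      rw [hφ2' a (by push_cast; linear_combination (ℓ : ZMod m) * ha), hφ1' a ha]


lemma PD0.dist0 (h : PD0 m D φ) (hD : 1 < D) : Dist0 φ where
  zero := by
    by_contra h0
    have h1 := h.ord 0 h0
    rw [addOrderOf_zero] at h1
    have := Nat.le_of_dvd one_pos h1
    omega
  dist := by
    intro p e hp hpe a
    exact h.dist p e hp hpe (Dvd.intro e hpe) a (by simp)

end Pool.Agent.Q59.TW
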