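import Pool.Agent.Q59.TW.Main
import Pool.Agent.Q59.RL.Hodge

/-!
# The doubles of the Hodge characters are generated by standard characters
-/

namespace Pool.Agent.Q59.TW

open Finset Pool.Agent.H916R2 Pool.Agent.Q59.FS Pool.Agent.Q59.RL

variable {m : ℕ} [NeZero m]

/-- the family generated by a larger base -/
lemma generated_mono {m : ℕ} {B B' : Multiset (ZMod m) → Prop} (h : ∀ s, B s → B' s)
    {s : Multiset (ZMod m)} (hs : Generated m B s) : Generated m B' s := by
  induction hs with
  | ofBase s hs => exact Generated.ofBase s (h s hs)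
  | pair a ha => exact Generated.pair a ha
  | standard p hp hp2 hpm a ha => exact Generated.standard p hp hp2 hpm a ha
  | standardTwo hm a ha => exact Generated.standardTwo hm a ha
  | join s t _ _ ihs iht => exact Generated.join s t ihs iht
  | cancel a s _ ih => exact Generated.cancel a s ih

/-- **Doubles are generated by the pairs and the standard characters.** -/
theorem double_generated {s : Multiset (ZMod m)} (hs : IsHodge m (s + s)) (hne : s ≠ 0)
    (B : Multiset (ZMod m) → Prop) : Generated m B (s + s) := by
  have h0 : (0 : ZMod m) ∉ s := fun h => hs.1 (Multiset.mem_add.mpr (Or.inl h))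
  have hrel : Rel fun a => ((s.count a : ℕ) : ℤ) := by
    intro t
    have h1 := hs.rel t
    have h2 : ∑ a, (((s + s).count a : ℕ) : ℤ) * saw ((t : ZMod m) * a) =
        2 * ∑ a, ((s.count a : ℕ) : ℤ) * saw ((t : ZMod m) * a) := by
      rw [mul_sum]
      refine sum_congr rfl fun a _ => ?_
      rw [Multiset.count_add]
      push_cast
      ring
    have h3 : 2 * ∑ a, ((s.count a : ℕ) : ℤ) * saw ((t : ZMod m) * a) = 0 := by
      rw [← h2]; exact h1
    exact (mul_eq_zero.mp h3).resolve_left two_ne_zero
  have h1 := two_rel hrel _ (cQ m (fun _ => False)) cQ_oddDist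
  have h2 : ∑ a, ((s.count a : ℕ) : ℤ) • cQ m (fun _ => False) a =
      (s.map (cQ m fun _ => False)).sum := sum_count s _
  rw [h2, ← Multiset.sum_add, ← Multiset.map_add, cQ_sum, QuotientAddGroup.eq_zero_iff] at h1
  refine generated_mono (B := fun _ => False) (fun _ h => h.elim) ?_
  refine generated_of_mem_LL (fun _ h => h.elim) (fun _ h => h.elim) hs.1 hs.2.1 ?_ h1
  intro h
  have h3 := congrArg Multiset.card h
  rw [Multiset.card_add, Multiset.card_zero] at h3
  exact hne (Multiset.card_eq_zero.mp (by omega))

end Pool.Agent.Q59.TW
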