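import Pool.Agent.Q59.TW.Ext

/-!
# The group of the universal distribution has no torsion
-/

namespace Pool.Agent.Q59.TW

open Finset Pool.Agent.H916R2 Pool.Agent.Q59.FS Pool.Agent.Q59.RL

section Base

variable {m R d : ℕ} [NeZero m] [NeZero d]

/-- the base distribution -/
theorem base_PD0 (hR : R * d = m) {b : (ZMod d)ˣ → ℤ}
    (hb : ∀ ℓ : ℕ, ℓ.Prime → ℓ ∣ d → ∀ u, ∑ κ ∈ KF (KL d ℓ), b (u * κ) = 0) :
    ∃ φ : ZMod m → ℚ, PD0 d d φ ∧ ∀ u : (ZMod d)ˣ, φ (iota R (u : ZMod d)) = b u := by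
  classical
  set φ : ZMod m → ℚ := fun a =>
    if h : ∃ u : (ZMod d)ˣ, (iota R (u : ZMod d) : ZMod m) = a then (b h.choose : ℚ) else 0 with hφ
  have v1 : ∀ u : (ZMod d)ˣ, φ (iota R (u : ZMod d)) = b u := by
    intro u
    have h : ∃ v : (ZMod d)ˣ, (iota R (v : ZMod d) : ZMod m) = iota R (u : ZMod d) := ⟨u, rfl⟩
    simp only [hφ]
    rw [dif_pos h]
    have h1 : h.choose = u := Units.ext (iota_inj hR h.choose_spec)
    rw [h1]
  have v2 : ∀ a, φ a ≠ 0 → ∃ u : (ZMod d)ˣ, (iota R (u : ZMod d) : ZMod m) = a := by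
    intro a ha
    by_contra hcon
    apply ha
    simp only [hφ]
    rw [dif_neg hcon]
  have v3 : ∀ a, φ a ≠ 0 → addOrderOf a = d := by
    intro a ha
    obtain ⟨u, rfl⟩ := v2 a ha
    exact addOrderOf_iota_unit hR u
  refine ⟨φ, ⟨?_, ?_, ?_⟩, v1⟩
  · intro a ha
    rw [← v3 a ha, ← nsmul_eq_mul, addOrderOf_nsmul_eq_zero]
  · intro a ha
    rw [v3 a ha]
  · intro p e hp hpe hpd a ha
    have hdpos : 0 < d := NeZero.pos d
    obtain ⟨d', hd'⟩ := hpd
    have hd'0 : 0 < d' := Nat.pos_of_ne_zero (by rintro rfl; rw [mul_zero] at hd'; omega)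
    have : NeZero d' := ⟨hd'0.ne'⟩
    have hrhs : φ ((p : ZMod m) * a) = 0 := by
      by_contra h0
      have h1 := v3 _ h0
      have h2 : addOrderOf ((p : ZMod m) * a) ∣ d' := by
        rw [addOrderOf_dvd_iff_nsmul_eq_zero, nsmul_eq_mul]
        have := ha
        rw [hd'] at this
        push_cast at this
        linear_combination this
      rw [h1] at h2
      have h3 := Nat.le_of_dvd hd'0 h2
      have h4 : d' < d := by rw [hd']; exact lt_mul_of_one_lt_left hd'0 hp.one_lt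
      omega
    rw [hrhs]
    by_cases hall : ∀ i ∈ range p, φ (a + (i : ZMod m) * (e : ZMod m)) = 0
    · exact sum_eq_zero hall
    · push Not at hall
      obtain ⟨i0, _, hi0⟩ := hall
      obtain ⟨u, hu⟩ := v2 _ hi0
      have he : e = R * d' := by
        have h1 : p * e = p * (R * d') := by rw [hpe, ← hR, hd']; ring
        exact Nat.eq_of_mul_eq_mul_left hp.pos h1
      rw [← coset_sum_shift_mul φ hpe a i0, ← hu, he]
      rw [coset_decomp hR hp hd'.symm φ u]
      have h1 : ∑ κ ∈ KF (KK hd'.symm), φ (iota R ((u * κ : (ZMod d)ˣ) : ZMod d)) = 0 := by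
        have h2 := hb p hp ⟨d', hd'⟩ u
        rw [KL_eq_KK hp.pos hd'.symm] at h2
        have h3 : ∀ κ ∈ KF (KK hd'.symm), φ (iota R ((u * κ : (ZMod d)ˣ) : ZMod d)) =
            ((b (u * κ) : ℤ) : ℚ) := fun κ _ => v1 _
        rw [sum_congr rfl h3, ← Int.cast_sum, h2, Int.cast_zero]
      rw [h1, zero_add]
      split_ifs with hc
      · by_contra h0
        have h2 := v3 _ h0
        have hRp : R * p * d' = m := by rw [mul_assoc, ← hd', hR]
        rw [addOrderOf_iota_unit hRp] at h2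
        have h4 : d' < d := by rw [hd']; exact lt_mul_of_one_lt_left hd'0 hp.one_lt
        omega
      · rfl

end Base

section Move

variable {m R d d' ℓ : ℕ} [NeZero m] [NeZero d] [NeZero d']

lemma push_rel0 (hR : R * d = m) (hℓ : ℓ.Prime) (h : ℓ * d' = d) {Q : Type*} [AddCommGroup Q]
    {c : ZMod m → Q} (hc : Dist0 c) {k : (ZMod d)ˣ → ℤ}
    (hK : ∀ κ ∈ KK h, ∀ u, k (u * κ) = k u) :
    ∑ u, k u • c (iota R (u : ZMod d)) =
      ∑ v : (ZMod d')ˣ, k (sec h v) • c (iota (R * ℓ) (v : ZMod d')) -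
        if ℓ.Coprime d' then ∑ v : (ZMod d')ˣ, k (sec h v) • c (g3 R ℓ d' m v) else 0 := by
  rw [fiber_sum h]
  have h1 : ∀ v : (ZMod d')ˣ, ∑ κ ∈ KF (KK h), k (sec h v * κ) •
      c (iota R ((sec h v * κ : (ZMod d)ˣ) : ZMod d)) = k (sec h v) •
        (c (iota (R * ℓ) (v : ZMod d')) - if ℓ.Coprime d' then c (g3 R ℓ d' m v) else 0) := by
    intro v
    have h2 : ∀ κ ∈ KF (KK h), k (sec h v * κ) •
        c (iota R ((sec h v * κ : (ZMod d)ˣ) : ZMod d)) = k (sec h v) •
          c (iota R ((sec h v * κ : (ZMod d)ˣ) : ZMod d)) := fun κ hκ => by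
      rw [hK κ (mem_KF.mp hκ)]
    rw [sum_congr rfl h2, ← smul_sum]
    congr 1
    have h3 := coset_decomp hR hℓ h c (sec h v)
    have h4 := hc.dist ℓ (R * d') hℓ (by rw [← hR, ← h]; ring) (iota R ((sec h v : (ZMod d)ˣ) : ZMod d))
    rw [h4, iota_sec hR h, sec_spec] at h3
    rw [eq_sub_iff_add_eq, h3]
    congr 1
    unfold g3
    split_ifs <;> rfl
  rw [sum_congr rfl fun v _ => h1 v]
  simp only [smul_sub]
  rw [sum_sub_distrib]
  congr 1
  split_ifs
  · rfl
  · simp

end Move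

section Down

variable {m R d : ℕ} [NeZero m] [NeZero d]

/-- invariant functions descend -/
lemma inv_down0 (hR : R * d = m) {ℓ : ℕ} (hℓ : ℓ.Prime) (hℓd : ℓ ∣ d) {k : (ZMod d)ˣ → ℤ}
    (hk : Inv (KL d ℓ) k) : ∃ y : ZMod m → ℤ, (∀ a, y a ≠ 0 → addOrderOf a < d) ∧
      ∀ (Q : Type) [AddCommGroup Q] (c : ZMod m → Q), Dist0 c →
        ∑ a, y a • c a = ∑ u : (ZMod d)ˣ, k u • c (iota R (u : ZMod d)) := by
  classical
  obtain ⟨d', hd'⟩ := hℓd
  have hd'0 : 0 < d' := Nat.pos_of_ne_zero (by rintro rfl; rw [mul_zero] at hd'; exact NeZero.ne d hd')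
  have : NeZero d' := ⟨hd'0.ne'⟩
  have h : ℓ * d' = d := hd'.symm
  have hRℓ : R * ℓ * d' = m := by rw [mul_assoc, h, hR]
  have hlt : d' < d := by
    rw [← h]
    exact lt_mul_of_one_lt_left hd'0 hℓ.one_lt
  set T : ℤ := if ℓ.Coprime d' then 1 else 0 with hT
  set k' : (ZMod d')ˣ → ℤ := fun v => k (sec h v) with hk'
  refine ⟨fun a => push (fun v : (ZMod d')ˣ => iota (R * ℓ) (v : ZMod d')) k' a -
    T * push (g3 R ℓ d' m) k' a, ?_, ?_⟩
  · intro a ha
    by_cases h1 : push (fun v : (ZMod d')ˣ => iota (R * ℓ) (v : ZMod d')) k' a = 0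
    · beta_reduce at ha
      rw [h1, zero_sub, neg_ne_zero] at ha
      have hT1 : T ≠ 0 := left_ne_zero_of_mul ha
      have hcop : ℓ.Coprime d' := by
        by_contra hcon
        rw [hT, if_neg hcon] at hT1
        exact hT1 rfl
      obtain ⟨v, hv⟩ := push_ne (right_ne_zero_of_mul ha)
      rw [← hv]
      unfold g3
      rw [dif_pos hcop, addOrderOf_iota_unit hRℓ]
      exact hlt
    · obtain ⟨v, hv⟩ := push_ne h1
      rw [← hv]
      rw [addOrderOf_iota_unit hRℓ]
      exact hlt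
  · intro Q _ c hc
    rw [push_rel0 hR hℓ h hc (k := k) (fun κ hκ u => hk κ (by rw [KL_eq_KK hℓ.pos h]; exact hκ) u)]
    simp only [sub_smul, mul_smul]
    rw [sum_sub_distrib, ← smul_sum, push_sum, push_sum, hT]
    congr 1
    split_ifs
    · rw [one_smul]
    · rw [zero_smul]

/-- sums of invariant functions descend -/
lemma dec_down0 (hR : R * d = m) : ∀ (L : List ℕ), (∀ ℓ ∈ L, ℓ.Prime ∧ ℓ ∣ d) →
    ∀ {k : (ZMod d)ˣ → ℤ}, Dec (L.map (KL d)) k →
    ∃ y : ZMod m → ℤ, (∀ a, y a ≠ 0 → addOrderOf a < d) ∧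
      ∀ (Q : Type) [AddCommGroup Q] (c : ZMod m → Q), Dist0 c →
        ∑ a, y a • c a = ∑ u : (ZMod d)ˣ, k u • c (iota R (u : ZMod d)) := by
  intro L
  induction L with
  | nil =>
    intro _ k hk
    refine ⟨fun _ => 0, fun a ha => absurd rfl ha, fun Q _ c _ => ?_⟩
    have hk' : ∀ u, k u = 0 := hk
    simp [hk']
  | cons ℓ L ih =>
    intro hL k hk
    obtain ⟨α, hα, hrest⟩ := hk
    obtain ⟨hℓ, hℓd⟩ := hL ℓ (List.mem_cons_self ..)
    obtain ⟨y1, h1, h2⟩ := inv_down0 hR hℓ hℓd hα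
    obtain ⟨y2, h3, h4⟩ := ih (fun p hp => hL p (List.mem_cons_of_mem _ hp)) hrest
    refine ⟨fun a => y1 a + y2 a, fun a ha => ?_, fun Q _ c hc => ?_⟩
    · by_cases h5 : y1 a = 0
      · refine h3 a ?_
        intro h6
        apply ha
        beta_reduce
        rw [h5, h6, add_zero]
      · exact h1 a h5
    · simp only [add_smul]
      rw [sum_add_distrib, h2 Q c hc, h4 Q c hc, ← sum_add_distrib]
      refine sum_congr rfl fun u _ => ?_
      rw [← add_smul]
      congr 1
      ring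


/-- the relations in the top order -/
theorem top_rel0 (hR : R * d = m) (hd : 1 < d) {x : ZMod m → ℤ}
    (hx : ∀ φ : ZMod m → ℚ, Dist0 φ → ∑ a, (x a : ℚ) * φ a = 0)
    (htop : ∀ a, x a ≠ 0 → addOrderOf a ≤ d) {b : (ZMod d)ˣ → ℤ}
    (hb : ∀ ℓ : ℕ, ℓ.Prime → ℓ ∣ d → ∀ u, ∑ κ ∈ KF (KL d ℓ), b (u * κ) = 0) :
    ∑ u : (ZMod d)ˣ, x (iota R (u : ZMod d)) * b u = 0 := by
  classical
  obtain ⟨φ0, h0, h0'⟩ := base_PD0 hR hb
  obtain ⟨φ, h1, h1'⟩ := h0.extend (Dvd.intro_left R hR)
  have hval : ∀ u : (ZMod d)ˣ, φ (iota R (u : ZMod d)) = b u := by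
    intro u
    rw [h1' _ ?_, h0']
    have := addOrderOf_nsmul_eq_zero (iota R (u : ZMod d) : ZMod m)
    rw [addOrderOf_iota_unit hR u, nsmul_eq_mul] at this
    exact this
  have h3 := hx φ (h1.dist0 hd)
  have h4 : ∑ a, (x a : ℚ) * φ a =
      ∑ a ∈ univ.filter (fun a : ZMod m => addOrderOf a = d), (x a : ℚ) * φ a := by
    symm
    apply sum_subset (subset_univ _)
    intro a _ ha
    have hne : addOrderOf a ≠ d := fun h => ha (mem_filter.mpr ⟨mem_univ _, h⟩)
    by_cases h5 : φ a = 0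
    · rw [h5, mul_zero]
    · by_cases h6 : x a = 0
      · rw [h6]; simp
      · exfalso
        apply hne
        exact le_antisymm (htop a h6) (Nat.le_of_dvd (addOrderOf_pos a) (h1.ord a h5))
  rw [h4, sum_order hR] at h3
  have h5 : ((∑ u : (ZMod d)ˣ, x (iota R (u : ZMod d)) * b u : ℤ) : ℚ) = 0 := by
    rw [← h3]
    push_cast
    exact sum_congr rfl fun u _ => by rw [hval]
  exact_mod_cast h5

/-- **The descent.** -/
theorem descend0 (hR : R * d = m) (hd : 1 < d) {x : ZMod m → ℤ}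
    (hx : ∀ φ : ZMod m → ℚ, Dist0 φ → ∑ a, (x a : ℚ) * φ a = 0)
    (htop : ∀ a, x a ≠ 0 → addOrderOf a ≤ d) :
    ∃ x' : ZMod m → ℤ, (∀ a, x' a ≠ 0 → addOrderOf a < d) ∧
      ∀ (Q : Type) [AddCommGroup Q] (c : ZMod m → Q), Dist0 c →
        ∑ a, x' a • c a = ∑ a, x a • c a := by
  classical
  have hII : II (PL d) (fun u : (ZMod d)ˣ => x (iota R (u : ZMod d))) := by
    intro u
    apply lb_TT
    intro b hb
    apply top_rel0 hR hd hx htop
    intro ℓ hℓ hℓd u
    exact hb _ (List.mem_map.mpr ⟨ℓ, by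
      rw [mem_toList]
      exact Nat.mem_primeFactors.mpr ⟨hℓ, hℓd, NeZero.ne d⟩, rfl⟩) u
  obtain ⟨y, hy1, hy2⟩ := dec_down0 hR _ (fun ℓ hℓ =>
    ⟨Nat.prime_of_mem_primeFactors (mem_toList.mp hℓ),
      Nat.dvd_of_mem_primeFactors (mem_toList.mp hℓ)⟩) (dec_of_II (ind_PL d) hII)
  refine ⟨fun a => (if addOrderOf a = d then 0 else x a) + y a, ?_, ?_⟩
  · intro a ha
    by_contra hcon
    push Not at hcon
    apply ha
    have e1 : y a = 0 := by
      by_contra h
      have := hy1 a h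
      omega
    beta_reduce
    rw [e1]
    split_ifs with h
    · rfl
    · have h1 : x a = 0 := by
        by_contra h1
        have := htop a h1
        omega
      rw [h1, add_zero]
  · intro Q _ c hc
    have h1 : ∑ a, (if addOrderOf a = d then 0 else x a) • c a +
        ∑ u : (ZMod d)ˣ, x (iota R (u : ZMod d)) • c (iota R (u : ZMod d)) = ∑ a, x a • c a := by
      rw [← sum_order hR (fun a => x a • c a), sum_filter, ← sum_add_distrib]
      refine sum_congr rfl fun a _ => ?_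
      split_ifs
      · rw [zero_smul, zero_add]
      · rw [add_zero]
    rw [← h1, ← hy2 Q c hc, ← sum_add_distrib]
    exact sum_congr rfl fun a _ => add_smul _ _ _

end Down

variable {m : ℕ} [NeZero m]

/-- **Integral combinations which are killed by all rational distributions are killed by all
distributions.** -/
theorem torsion_free {x : ZMod m → ℤ}
    (hx : ∀ φ : ZMod m → ℚ, Dist0 φ → ∑ a, (x a : ℚ) * φ a = 0)
    (Q : Type) [AddCommGroup Q] (c : ZMod m → Q) (hc : Dist0 c) : ∑ a, x a • c a = 0 := by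
  classical
  suffices H : ∀ D : ℕ, ∀ x : ZMod m → ℤ,
      (∀ φ : ZMod m → ℚ, Dist0 φ → ∑ a, (x a : ℚ) * φ a = 0) →
      (∀ a, x a ≠ 0 → addOrderOf a ≤ D) → ∑ a, x a • c a = 0 by
    refine H m x hx fun a _ => ?_
    have := addOrderOf_dvd_card (x := a)
    rw [ZMod.card] at this
    exact Nat.le_of_dvd (NeZero.pos m) this
  intro D
  induction D with
  | zero =>
    intro x _ htop
    refine sum_eq_zero fun a _ => ?_
    have h1 : x a = 0 := by
      by_contra h
      have := htop a h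
      have := addOrderOf_pos a
      omega
    rw [h1, zero_smul]
  | succ D ih =>
    intro x hx htop
    by_cases hD : D = 0
    · subst hD
      refine sum_eq_zero fun a _ => ?_
      by_cases h : x a = 0
      · rw [h, zero_smul]
      · have h1 := htop a h
        have h2 := addOrderOf_pos a
        have h3 : addOrderOf a = 1 := by omega
        rw [AddMonoid.addOrderOf_eq_one_iff] at h3
        rw [h3, hc.zero, smul_zero]
    by_cases hdm : D + 1 ∣ m
    · obtain ⟨R, hR0⟩ := hdm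
      have hR : R * (D + 1) = m := by rw [hR0, mul_comm]
      obtain ⟨x', h1, h2⟩ := descend0 hR (by omega) hx htop
      rw [← h2 Q c hc]
      refine ih x' (fun φ hφ => ?_) fun a ha => Nat.lt_succ_iff.mp (h1 a ha)
      have h3 := h2 ℚ φ hφ
      simp only [zsmul_eq_mul] at h3
      rw [h3]
      exact hx φ hφ
    · refine ih x hx fun a ha => ?_
      have h1 := htop a ha
      have h2 : addOrderOf a ∣ m := by
        have := addOrderOf_dvd_card (x := a)
        rwa [ZMod.card] at this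
      by_contra hcon
      have h3 : addOrderOf a = D + 1 := by omega
      exact hdm (h3 ▸ h2)

/-- **The classes of the Hodge relations are killed by two.** -/
theorem two_rel {x : ZMod m → ℤ} (hx : Rel x) (Q : Type) [AddCommGroup Q] (c : ZMod m → Q)
    (hc : OddDist c) : ∑ a, x a • c a + ∑ a, x a • c a = 0 := by
  have h1 : ∑ a, od x a • c a = ∑ a, x a • c a + ∑ a, x a • c a := by
    unfold od
    simp only [sub_smul]
    rw [sum_sub_distrib, sub_eq_add_neg]
    congr 1
    rw [← sum_neg_distrib]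
    refine Fintype.sum_equiv (Equiv.neg _) _ _ fun a => ?_
    simp only [Equiv.neg_apply]
    rw [hc.neg, smul_neg]
  rw [← h1]
  refine torsion_free (fun φ hφ => ?_) Q c ⟨hc.half 0 (by simp), hc.dist⟩
  have h2 : OddDist (fun a => φ a - φ (-a)) := by
    refine ⟨fun a => by rw [neg_neg]; ring, fun a ha => ?_, fun p e hp hpe a => ?_⟩
    · have h3 : -a = a := by linear_combination -ha
      rw [h3, sub_self]
    · rw [sum_sub_distrib, hφ.dist p e hp hpe]
      have h3 := hφ.dist p e hp hpe (-a)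
      have h4 : -((p : ZMod m) * a) = (p : ZMod m) * -a := by ring
      rw [h4, ← h3]
      congr 1
      have hcop : (p - 1).Coprime p := by
        have h7 : p - 1 + 1 = p := Nat.sub_add_cancel hp.one_lt.le
        have h6 : (p - 1).Coprime (p - 1 + 1) := by
          rw [Nat.coprime_self_add_right]
          exact Nat.coprime_one_right _
        rwa [h7] at h6
      rw [← coset_sum_coprime φ hpe hcop]
      refine sum_congr rfl fun i _ => ?_
      congr 1
      rw [Nat.cast_sub hp.one_lt.le, Nat.cast_one]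
      linear_combination -(i : ZMod m) * mul_cast_zero hpe
  have h3 := rel_rat hx h2
  have h4 : ∑ a, ((od x a : ℤ) : ℚ) * φ a = ∑ a, (x a : ℚ) * (φ a - φ (-a)) := by
    unfold od
    push_cast
    simp only [sub_mul, mul_sub]
    rw [sum_sub_distrib, sum_sub_distrib]
    congr 1
    refine Fintype.sum_equiv (Equiv.neg _) _ _ fun a => ?_
    simp only [Equiv.neg_apply]
    rw [neg_neg]
  rw [h4, h3]

end Pool.Agent.Q59.TW
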