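import Pool.Agent.Q59.TW.Units

/-!
# The norms of the cyclotomic numbers of order three and four
-/

namespace Pool.Agent.Q59.TW

open Finset Polynomial

set_option linter.unusedSectionVars false

section Conj

variable (m : ℕ) [NeZero m] (K : Type) [Field K] [CharZero K] [Algebra ℚ K]
  [IsCyclotomicExtension {m} ℚ K]

/-- complex conjugation -/
noncomputable def cj : Gal(K/ℚ) :=
  (IsCyclotomicExtension.autEquivPow K (Polynomial.cyclotomic.irreducible_rat (NeZero.pos m))).symm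
    (-1)

variable {m K}

lemma aut_zt (σ : Gal(K/ℚ)) : ∃ k : ℕ, σ (zt m K) = zt m K ^ k :=
  ⟨_, ((zt_prim m K).autToPow_spec ℚ σ).symm⟩

lemma cj_zt : cj m K (zt m K) = (zt m K)⁻¹ := by
  have h1 := (zt_prim m K).autToPow_spec ℚ (cj m K)
  have h2 : (zt_prim m K).autToPow ℚ (cj m K) = -1 := by
    have h3 := (IsCyclotomicExtension.autEquivPow K
      (Polynomial.cyclotomic.irreducible_rat (NeZero.pos m))).apply_symm_apply (-1)
    exact h3
  rw [h2] at h1
  rw [← h1]
  have h4 : zt m K ^ (((-1 : (ZMod m)ˣ) : ZMod m)).val = zz K ((-1 : (ZMod m)ˣ) : ZMod m) := rfl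
  rw [h4]
  have h5 : ((-1 : (ZMod m)ˣ) : ZMod m) = -((1 : ℕ) : ZMod m) := by simp
  rw [h5, zz_neg, zz_natCast, pow_one]

lemma ext_zt {A : Type*} [Field A] [Algebra ℚ A] {f g : K →ₐ[ℚ] A}
    (h : f (zt m K) = g (zt m K)) : f = g := by
  apply ((zt_prim m K).powerBasis ℚ).algHom_ext
  rw [IsPrimitiveRoot.powerBasis_gen]
  exact h

lemma cj_comm (σ : Gal(K/ℚ)) (x : K) : σ (cj m K x) = cj m K (σ x) := by
  have h : (σ.toAlgHom.comp (cj m K).toAlgHom) = ((cj m K).toAlgHom.comp σ.toAlgHom) := by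
    apply ext_zt (m := m)
    change σ (cj m K (zt m K)) = cj m K (σ (zt m K))
    obtain ⟨k, hk⟩ := aut_zt (m := m) (K := K) σ
    rw [cj_zt, hk, map_inv₀, map_pow, cj_zt, hk, inv_pow]
  exact congrArg (fun f : K →ₐ[ℚ] K => f x) h

/-- an embedding -/
lemma exists_embedding : ∃ φ : K →ₐ[ℚ] ℂ, ∀ x, φ (cj m K x) = starRingEnd ℂ (φ x) := by
  have : FiniteDimensional ℚ K := IsCyclotomicExtension.finiteDimensional {m} ℚ K
  have : Algebra.IsAlgebraic ℚ K := Algebra.IsAlgebraic.of_finite ℚ K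
  let φ : K →ₐ[ℚ] ℂ := IsAlgClosed.lift
  refine ⟨φ, fun x => ?_⟩
  have h : φ.comp (cj m K).toAlgHom =
      ((Complex.conjAe.toAlgHom.restrictScalars ℚ).comp φ) := by
    apply ext_zt (m := m)
    change φ (cj m K (zt m K)) = starRingEnd ℂ (φ (zt m K))
    rw [cj_zt, map_inv₀]
    apply Complex.inv_eq_conj
    have h1 : φ (zt m K) ^ m = 1 := by rw [← map_pow, (zt_prim m K).pow_eq_one, map_one]
    exact Complex.norm_eq_one_of_pow_eq_one h1 (NeZero.ne m)
  exact congrArg (fun f : K →ₐ[ℚ] ℂ => f x) h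

lemma root_cj {r : K} (hr : IsOfFinOrder r) : r * cj m K r = 1 := by
  obtain ⟨φ, hφ⟩ := exists_embedding (m := m) (K := K)
  have hinj : Function.Injective φ := φ.injective
  apply hinj
  rw [map_mul, hφ, map_one]
  obtain ⟨n, hn, hn'⟩ := isOfFinOrder_iff_pow_eq_one.mp hr
  have h1 : φ r ^ n = 1 := by rw [← map_pow, hn', map_one]
  have h2 := Complex.norm_eq_one_of_pow_eq_one h1 (by omega)
  rw [← Complex.inv_eq_conj h2]
  refine mul_inv_cancel₀ ?_
  intro h3
  rw [h3, norm_zero] at h2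
  exact zero_ne_one h2

/-- elements whose conjugates differ by roots of unity -/
def Good (x : Kˣ) : Prop := ∀ σ : Gal(K/ℚ), IsOfFinOrder (σ (x : K) / (x : K))

lemma Good.mul {x y : Kˣ} (hx : Good x) (hy : Good y) : Good (x * y) := by
  intro σ
  have h1 : σ ((x * y : Kˣ) : K) / ((x * y : Kˣ) : K) = (σ (x : K) / x) * (σ (y : K) / y) := by
    rw [Units.val_mul, map_mul]
    have := x.ne_zero
    have := y.ne_zero
    field_simp
  rw [h1]
  exact (hx σ).mul (hy σ)

lemma Good.inv {x : Kˣ} (hx : Good x) : Good x⁻¹ := by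
  intro σ
  have h1 : σ ((x⁻¹ : Kˣ) : K) / ((x⁻¹ : Kˣ) : K) = (σ (x : K) / x)⁻¹ := by
    rw [Units.val_inv_eq_inv_val, map_inv₀, inv_div_inv, inv_div]
  rw [h1]
  obtain ⟨n, hn, hn'⟩ := isOfFinOrder_iff_pow_eq_one.mp (hx σ)
  refine isOfFinOrder_iff_pow_eq_one.mpr ⟨n, hn, ?_⟩
  rw [inv_pow, hn', inv_one]

lemma good_rat (q : ℚˣ) : Good (Units.map (algebraMap ℚ K).toMonoidHom q) := by
  intro σ
  have h1 : σ ((Units.map (algebraMap ℚ K).toMonoidHom q : Kˣ) : K) =
      ((Units.map (algebraMap ℚ K).toMonoidHom q : Kˣ) : K) := σ.commutes _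
  rw [h1, div_self (Units.ne_zero _)]
  exact IsOfFinOrder.one

lemma good_root {r : Kˣ} (hr : IsOfFinOrder r) : Good r := by
  intro σ
  obtain ⟨n, hn, hn'⟩ := isOfFinOrder_iff_pow_eq_one.mp hr
  refine isOfFinOrder_iff_pow_eq_one.mpr ⟨n, hn, ?_⟩
  have h1 : (r : K) ^ n = 1 := by rw [← Units.val_pow_eq_pow_val, hn', Units.val_one]
  rw [div_pow, ← map_pow, h1, map_one, div_one]

/-- the norms are rational -/
lemma Good.norm {y : Kˣ} (hy : Good y) : ∃ r : ℚ, (y : K) * cj m K y = algebraMap ℚ K r := by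
  have : FiniteDimensional ℚ K := IsCyclotomicExtension.finiteDimensional {m} ℚ K
  have : IsGalois ℚ K := IsCyclotomicExtension.isGalois {m} ℚ K
  have h1 : ((y : K) * cj m K y) ∈ (⊥ : IntermediateField ℚ K) := by
    rw [IsGalois.mem_bot_iff_fixed]
    intro σ
    have h2 : σ (y : K) = (σ (y : K) / y) * y := by
      rw [div_mul_cancel₀ _ y.ne_zero]
    rw [map_mul, cj_comm, h2, map_mul]
    have h3 := root_cj (m := m) (hy σ)
    linear_combination ((y : K) * cj m K y) * h3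
  obtain ⟨r, hr⟩ := IntermediateField.mem_bot.mp h1
  exact ⟨r, hr.symm⟩

/-- good elements of the subgroup have square norms -/
theorem norm_square {x : Kˣ} (hx : Good x) (hH : x ∈ HH K) :
    ∃ s : ℚ, (x : K) * cj m K x = algebraMap ℚ K (s * s) := by
  obtain ⟨q, r, y, hr, rfl⟩ := hH
  have hy : Good y := by
    intro σ
    have h1 : Good (y * y) := by
      have h2 := (((good_rat q).mul (good_root hr)).inv).mul hx
      rwa [inv_mul_cancel_left] at h2
    have h3 : σ ((y * y : Kˣ) : K) / ((y * y : Kˣ) : K) = (σ (y : K) / y) ^ 2 := by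
      rw [Units.val_mul, map_mul]
      have := y.ne_zero
      field_simp
    have h4 := h1 σ
    rw [h3] at h4
    exact (isOfFinOrder_pow.mp h4).resolve_right two_ne_zero
  obtain ⟨t, ht⟩ := hy.norm (m := m)
  have hr' : IsOfFinOrder (r : K) := by
    obtain ⟨n, hn, hn'⟩ := isOfFinOrder_iff_pow_eq_one.mp hr
    refine isOfFinOrder_iff_pow_eq_one.mpr ⟨n, hn, ?_⟩
    rw [← Units.val_pow_eq_pow_val, hn', Units.val_one]
  refine ⟨q * t, ?_⟩
  have h1 : ((Units.map (algebraMap ℚ K).toMonoidHom q : Kˣ) : K) = algebraMap ℚ K q := rfl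
  simp only [Units.val_mul, h1, map_mul, AlgEquiv.commutes]
  have h2 := root_cj (m := m) hr'
  have e : (algebraMap ℚ K) (q : ℚ) * (r : K) * ((y : K) * y) *
      ((algebraMap ℚ K) (q : ℚ) * cj m K r * (cj m K y * cj m K y)) =
      (algebraMap ℚ K) (q : ℚ) * (algebraMap ℚ K) (q : ℚ) * ((r : K) * cj m K r) *
      ((y : K) * cj m K y) * ((y : K) * cj m K y) := by ring
  rw [e, h2, ht]
  ring

end Conj

end Pool.Agent.Q59.TW
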