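import Pool.Agent.Q59.TW.Norm
import Pool.Agent.Q59.TW.Gen

/-!
# Elements of order three and four in Hodge relations
-/

namespace Pool.Agent.Q59.TW

open Finset Pool.Agent.H916R2 Pool.Agent.Q59.FS Pool.Agent.Q59.RL

set_option linter.unusedSectionVars false

section Good

variable {m : ℕ} [NeZero m] {K : Type} [Field K] [CharZero K] [Algebra ℚ K]
  [IsCyclotomicExtension {m} ℚ K]

lemma nsmul_of_order {a : ZMod m} {n : ℕ} (ha : addOrderOf a = n) : (n : ZMod m) * a = 0 := by
  rw [← nsmul_eq_mul, ← ha, addOrderOf_nsmul_eq_zero]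

lemma zz_pow_order {a : ZMod m} {n : ℕ} (ha : addOrderOf a = n) : zz K a ^ n = 1 := by
  rw [← zz_mul, nsmul_of_order ha, zz_zero]

lemma z3 {a : ZMod m} (ha : addOrderOf a = 3) : zz K a ^ 2 + zz K a + 1 = 0 := by
  have h1 := zz_pow_order (K := K) ha
  have h2 : zz K a ≠ 1 := by
    intro h
    have h3 := zz_eq_one h
    rw [h3, addOrderOf_zero] at ha
    omega
  have h3 : (zz K a - 1) * (zz K a ^ 2 + zz K a + 1) = 0 := by linear_combination h1
  exact (mul_eq_zero.mp h3).resolve_left (sub_ne_zero.mpr h2)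

lemma z4 {a : ZMod m} (ha : addOrderOf a = 4) : zz K a ^ 2 + 1 = 0 := by
  have h1 := zz_pow_order (K := K) ha
  have h2 : zz K a ^ 2 ≠ 1 := by
    intro h
    rw [← zz_mul] at h
    have h3 := zz_eq_one h
    rw [← nsmul_eq_mul] at h3
    have h4 := addOrderOf_dvd_of_nsmul_eq_zero h3
    rw [ha] at h4
    exact absurd (Nat.le_of_dvd two_pos h4) (by norm_num)
  have h3 : (zz K a ^ 2 - 1) * (zz K a ^ 2 + 1) = 0 := by linear_combination h1
  exact (mul_eq_zero.mp h3).resolve_left (sub_ne_zero.mpr h2)

lemma good3 {a : ZMod m} (ha : addOrderOf a = 3) {x : Kˣ} (hx : (x : K) = 1 - zz K a) :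
    Good x ∧ (x : K) * cj m K x = 3 := by
  have h0 := z3 (K := K) ha
  have hx0 : (1 : K) - zz K a ≠ 0 := by rw [← hx]; exact x.ne_zero
  refine ⟨fun σ => ?_, ?_⟩
  · have h1 : σ (zz K a) ^ 2 + σ (zz K a) + 1 = 0 := by
      have := congrArg σ h0
      simpa using this
    have h2 : (σ (zz K a) - zz K a) * (σ (zz K a) + zz K a + 1) = 0 := by
      linear_combination h1 - h0
    rw [hx, map_sub, map_one]
    rcases mul_eq_zero.mp h2 with h | h
    · rw [sub_eq_zero.mp h, div_self hx0]
      exact IsOfFinOrder.one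
    · have h3 : (1 - σ (zz K a)) / (1 - zz K a) = 1 + zz K a := by
        rw [div_eq_iff hx0]
        linear_combination -h + h0
      rw [h3]
      refine isOfFinOrder_iff_pow_eq_one.mpr ⟨6, by norm_num, ?_⟩
      have h4 : (1 + zz K a) ^ 2 = zz K a := by linear_combination h0
      calc (1 + zz K a) ^ 6 = ((1 + zz K a) ^ 2) ^ 3 := by ring
        _ = 1 := by rw [h4, zz_pow_order ha]
  · have h1 := root_cj (m := m) (zz_finOrder (K := K) a)
    have h2 : cj m K (zz K a) = zz K a ^ 2 := by
      have h3 : zz K a * zz K a ^ 2 = 1 := by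
        rw [← pow_succ', zz_pow_order ha]
      exact mul_left_cancel₀ (zz_ne_zero a) (h1.trans h3.symm)
    rw [hx, map_sub, map_one, h2]
    have h3 := zz_pow_order (K := K) ha
    linear_combination h3 - h0

lemma good4 {a : ZMod m} (ha : addOrderOf a = 4) {x : Kˣ} (hx : (x : K) = 1 - zz K a) :
    Good x ∧ (x : K) * cj m K x = 2 := by
  have h0 := z4 (K := K) ha
  have hx0 : (1 : K) - zz K a ≠ 0 := by rw [← hx]; exact x.ne_zero
  refine ⟨fun σ => ?_, ?_⟩
  · have h1 : σ (zz K a) ^ 2 + 1 = 0 := by
      have := congrArg σ h0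
      simpa using this
    have h2 : (σ (zz K a) - zz K a) * (σ (zz K a) + zz K a) = 0 := by
      linear_combination h1 - h0
    rw [hx, map_sub, map_one]
    rcases mul_eq_zero.mp h2 with h | h
    · rw [sub_eq_zero.mp h, div_self hx0]
      exact IsOfFinOrder.one
    · have h3 : (1 - σ (zz K a)) / (1 - zz K a) = zz K a := by
        rw [div_eq_iff hx0]
        linear_combination -h + h0
      rw [h3]
      exact zz_finOrder a
  · have h1 := root_cj (m := m) (zz_finOrder (K := K) a)
    have h2 : cj m K (zz K a) = - zz K a := by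
      have h3 : zz K a * (- zz K a) = 1 := by linear_combination -h0
      exact mul_left_cancel₀ (zz_ne_zero a) (h1.trans h3.symm)
    rw [hx, map_sub, map_one, h2]
    linear_combination -h0

/-- the product over a multiset -/
lemma exists_unit (R : Multiset (ZMod m)) (hR : ∀ a ∈ R, addOrderOf a = 3 ∨ addOrderOf a = 4) :
    ∃ x : Kˣ, Good x ∧ (R.map (cl K)).sum = Additive.ofMul (QuotientGroup.mk x) ∧
      (x : K) * cj m K x = 3 ^ (R.filter fun a => addOrderOf a = 3).card *
        2 ^ (R.filter fun a => addOrderOf a = 4).card := by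
  induction R using Multiset.induction_on with
  | empty =>
    refine ⟨1, fun σ => ?_, rfl, by simp⟩
    rw [Units.val_one, map_one, div_self one_ne_zero]
    exact IsOfFinOrder.one
  | cons a R ih =>
    obtain ⟨x, hx1, hx2, hx3⟩ := ih fun b hb => hR b (Multiset.mem_cons_of_mem hb)
    have ha := hR a (Multiset.mem_cons_self a R)
    have ha0 : a ≠ 0 := by
      rintro rfl
      rw [addOrderOf_zero] at ha
      omega
    set y : Kˣ := Units.mk0 (1 - zz K a) (one_sub_ne ha0) with hy
    refine ⟨y * x, ?_, ?_, ?_⟩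
    · rcases ha with h | h
      · exact (good3 h rfl).1.mul hx1
      · exact (good4 h rfl).1.mul hx1
    · rw [Multiset.map_cons, Multiset.sum_cons, hx2, cl_of_ne ha0]
      rfl
    · have h1 : ((y * x : Kˣ) : K) * cj m K ((y * x : Kˣ) : K) =
          ((y : K) * cj m K y) * ((x : K) * cj m K x) := by
        rw [Units.val_mul, map_mul]
        ring
      rw [h1, hx3]
      rcases ha with h | h
      · rw [(good3 h rfl).2, Multiset.filter_cons_of_pos (p := fun a => addOrderOf a = 3) R h,
          Multiset.card_cons, Multiset.filter_cons_of_neg (p := fun a => addOrderOf a = 4) R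
            (by rw [h]; norm_num)]
        ring
      · rw [(good4 h rfl).2, Multiset.filter_cons_of_pos (p := fun a => addOrderOf a = 4) R h,
          Multiset.card_cons, Multiset.filter_cons_of_neg (p := fun a => addOrderOf a = 3) R
            (by rw [h]; norm_num)]
        ring

end Good

lemma even_of_square {a b : ℕ} {s : ℚ} (h : (3 : ℚ) ^ a * 2 ^ b = s * s) : Even a ∧ Even b := by
  have h1 : IsSquare ((3 ^ a * 2 ^ b : ℕ) : ℚ) := ⟨s, by push_cast; exact h⟩
  rw [Rat.isSquare_natCast_iff] at h1
  obtain ⟨t, ht⟩ := h1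
  have ht0 : t ≠ 0 := by
    rintro rfl
    have : 0 < 3 ^ a * 2 ^ b := by positivity
    omega
  have h3 : (3 ^ a * 2 ^ b).factorization 3 = a := by
    rw [Nat.factorization_mul (by positivity) (by positivity), Finsupp.add_apply,
      Nat.factorization_pow, Nat.factorization_pow, Finsupp.smul_apply, Finsupp.smul_apply,
      Nat.Prime.factorization_self Nat.prime_three,
      Nat.factorization_eq_zero_of_not_dvd (by norm_num : ¬ 3 ∣ 2)]
    simp
  have h2 : (3 ^ a * 2 ^ b).factorization 2 = b := by
    rw [Nat.factorization_mul (by positivity) (by positivity), Finsupp.add_apply,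
      Nat.factorization_pow, Nat.factorization_pow, Finsupp.smul_apply, Finsupp.smul_apply,
      Nat.Prime.factorization_self Nat.prime_two,
      Nat.factorization_eq_zero_of_not_dvd (by norm_num : ¬ 2 ∣ 3)]
    simp
  rw [ht, Nat.factorization_mul ht0 ht0, Finsupp.add_apply] at h2 h3
  exact ⟨⟨_, h3.symm⟩, ⟨_, h2.symm⟩⟩

variable {m : ℕ} [NeZero m]

/-- the elements of order three and four occur an even number of times -/
theorem even_of_dist (R : Multiset (ZMod m)) (hR : ∀ a ∈ R, addOrderOf a = 3 ∨ addOrderOf a = 4)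
    (h : ∀ (Q : Type) [AddCommGroup Q] (c : ZMod m → Q), Dist0 c → (∀ a, c (-a) = c a) →
      (∀ q : Q, q + q = 0) → (R.map c).sum = 0) :
    Even (R.filter fun a => addOrderOf a = 3).card ∧
      Even (R.filter fun a => addOrderOf a = 4).card := by
  let K : Type := CyclotomicField m ℚ
  let _ : Algebra ℚ K := CyclotomicField.algebra m ℚ
  have : IsCyclotomicExtension {m} ℚ K := CyclotomicField.isCyclotomicExtension m ℚ
  obtain ⟨x, hx1, hx2, hx3⟩ := exists_unit (K := K) R hR
  have h1 := h (QH K) (cl K) cl_dist cl_neg two_cl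
  rw [hx2] at h1
  have h2 : x ∈ HH K := (QuotientGroup.eq_one_iff _).mp h1
  obtain ⟨s, hs⟩ := norm_square (m := m) hx1 h2
  refine even_of_square (s := s) ?_
  apply (algebraMap ℚ K).injective
  rw [← hs, hx3]
  simp

end Pool.Agent.Q59.TW
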