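import Pool.Agent.Q59.TW.Parity

/-!
# Hodge characters which are doubles up to elements of order three and four
-/

namespace Pool.Agent.Q59.TW

open Finset Pool.Agent.H916R2 Pool.Agent.Q59.FS Pool.Agent.Q59.RL

variable {m : ℕ} [NeZero m]

lemma order_dvd (a : ZMod m) : addOrderOf a ∣ m := by
  have := addOrderOf_dvd_card (x := a)
  rwa [ZMod.card] at this

/-- elements killed by a divisor -/
lemma killed_eq {n e : ℕ} (hn : 0 < n) (hne : n * e = m) {a : ZMod m} (ha : (n : ZMod m) * a = 0) :
    ∃ r : ℕ, r < n ∧ a = (r : ZMod m) * (e : ZMod m) := by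
  obtain ⟨k, rfl⟩ := ZMod.natCast_zmod_surjective a
  rw [← Nat.cast_mul, ZMod.natCast_eq_zero_iff, ← hne] at ha
  obtain ⟨j, hj⟩ := Nat.dvd_of_mul_dvd_mul_left hn ha
  refine ⟨j % n, Nat.mod_lt _ hn, ?_⟩
  have h1 : (n : ZMod m) * (e : ZMod m) = 0 := by
    rw [← Nat.cast_mul, hne, ZMod.natCast_self]
  have h2 : (j : ZMod m) = ((j % n : ℕ) : ZMod m) + (n : ZMod m) * ((j / n : ℕ) : ZMod m) := by
    rw [← Nat.cast_mul, ← Nat.cast_add, Nat.mod_add_div]
  rw [hj]
  push_cast
  rw [h2]
  linear_combination ((j / n : ℕ) : ZMod m) * h1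

/-- two elements of order three are equal or opposite -/
lemma eq_or_neg3 {a b : ZMod m} (ha : addOrderOf a = 3) (hb : addOrderOf b = 3) :
    b = a ∨ b = -a := by
  have h3 : 3 ∣ m := ha ▸ order_dvd a
  obtain ⟨e, he⟩ := h3
  have hz : ((3 : ℕ) : ZMod m) * (e : ZMod m) = 0 := by
    rw [← Nat.cast_mul, ← he, ZMod.natCast_self]
  obtain ⟨r, hr, har⟩ := killed_eq (by norm_num : 0 < 3) he.symm (nsmul_of_order ha)
  obtain ⟨s, hs, hbs⟩ := killed_eq (by norm_num : 0 < 3) he.symm (nsmul_of_order hb)
  have hr0 : r ≠ 0 := by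
    rintro rfl
    rw [Nat.cast_zero, zero_mul] at har
    rw [har, addOrderOf_zero] at ha
    omega
  have hs0 : s ≠ 0 := by
    rintro rfl
    rw [Nat.cast_zero, zero_mul] at hbs
    rw [hbs, addOrderOf_zero] at hb
    omega
  rw [har, hbs]
  by_cases h : r = s
  · left; rw [h]
  · right
    have h1 : r + s = 3 := by omega
    have h2 : (r : ZMod m) + (s : ZMod m) = ((3 : ℕ) : ZMod m) := by rw [← h1]; push_cast; ring
    linear_combination (e : ZMod m) * h2 + hz

/-- twice an element of order four -/
lemma double4 {a : ZMod m} (ha : addOrderOf a = 4) {e : ℕ} (he : 2 * e = m) :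
    a + a = (e : ZMod m) := by
  have h1 : ((2 : ℕ) : ZMod m) * (a + a) = 0 := by
    have := nsmul_of_order ha
    push_cast at this ⊢
    linear_combination this
  obtain ⟨r, hr, har⟩ := killed_eq (by norm_num : 0 < 2) he h1
  have h2 : a + a ≠ 0 := by
    intro h
    have h3 : 2 • a = 0 := by rw [two_nsmul, h]
    have h4 := addOrderOf_dvd_of_nsmul_eq_zero h3
    rw [ha] at h4
    exact absurd (Nat.le_of_dvd two_pos h4) (by norm_num)
  have h3 : r = 1 := by
    have : r ≠ 0 := by
      rintro rfl
      rw [Nat.cast_zero, zero_mul] at har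
      exact h2 har
    omega
  rw [har, h3, Nat.cast_one, one_mul]

/-- two elements of order four are equal or opposite -/
lemma eq_or_neg4 {a b : ZMod m} (ha : addOrderOf a = 4) (hb : addOrderOf b = 4) :
    b = a ∨ b = -a := by
  have h4 : 4 ∣ m := ha ▸ order_dvd a
  obtain ⟨e, he⟩ := h4
  have he' : 2 * (2 * e) = m := by rw [he]; ring
  have h1 := double4 ha he'
  have h2 := double4 hb he'
  have h3 : ((2 : ℕ) : ZMod m) * (b - a) = 0 := by
    push_cast
    linear_combination h2 - h1
  obtain ⟨r, hr, hr'⟩ := killed_eq (by norm_num : 0 < 2) he' h3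
  interval_cases r
  · left
    rw [Nat.cast_zero, zero_mul] at hr'
    exact sub_eq_zero.mp hr'
  · right
    rw [Nat.cast_one, one_mul, ← h1] at hr'
    have h4 := nsmul_of_order ha
    push_cast at h4
    linear_combination hr' + h4

/-- distributions on the elements of order three and four -/
lemma Dist0.neg34 {Q : Type*} [AddCommGroup Q] {c : ZMod m → Q} (hc : Dist0 c) {a : ZMod m}
    (ha : addOrderOf a = 3 ∨ addOrderOf a = 4) : c a + c (-a) = 0 := by
  rcases ha with ha | ha
  · have h3 : 3 ∣ m := ha ▸ order_dvd a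
    obtain ⟨e, he⟩ := h3
    have h1 := hc.dist 3 e Nat.prime_three he.symm 0
    obtain ⟨r, hr, har⟩ := killed_eq (by norm_num : 0 < 3) he.symm (nsmul_of_order ha)
    have hz : ((3 : ℕ) : ZMod m) * (e : ZMod m) = 0 := by
      rw [← Nat.cast_mul, ← he, ZMod.natCast_self]
    simp only [sum_range_succ, sum_range_zero, zero_add, Nat.cast_zero, zero_mul, mul_zero,
      hc.zero, Nat.cast_one, one_mul] at h1
    have hr0 : r ≠ 0 := by
      rintro rfl
      rw [Nat.cast_zero, zero_mul] at har
      rw [har, addOrderOf_zero] at ha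
      omega
    have h12 : r = 1 ∨ r = 2 := by omega
    rcases h12 with rfl | rfl
    · rw [Nat.cast_one, one_mul] at har
      have h2 : -a = ((2 : ℕ) : ZMod m) * (e : ZMod m) := by
        rw [har]
        push_cast at hz ⊢
        linear_combination -hz
      rw [h2, har]
      exact h1
    · have h2 : -a = (e : ZMod m) := by
        rw [har]
        push_cast at hz ⊢
        linear_combination -hz
      rw [h2, har, add_comm]
      exact h1
  · have h4 : 4 ∣ m := ha ▸ order_dvd a
    obtain ⟨e, he⟩ := h4
    have he' : 2 * (2 * e) = m := by rw [he]; ring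
    have h0 := hc.dist 2 (2 * e) Nat.prime_two he' 0
    have h1 := hc.dist 2 (2 * e) Nat.prime_two he' a
    have h2 := double4 ha he'
    simp only [sum_range_succ, sum_range_zero, zero_add, Nat.cast_zero, zero_mul, mul_zero,
      hc.zero, Nat.cast_one, one_mul] at h0
    simp only [sum_range_succ, sum_range_zero, zero_add, Nat.cast_zero, zero_mul, add_zero,
      Nat.cast_one, one_mul] at h1
    have h3 : ((2 : ℕ) : ZMod m) * a = ((2 * e : ℕ) : ZMod m) := by
      rw [← h2]; push_cast; ring
    have h5 : a + ((2 * e : ℕ) : ZMod m) = -a := by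
      have := nsmul_of_order ha
      push_cast at this
      rw [← h2]
      linear_combination this
    rw [h3, h0, h5] at h1
    exact h1

/-- **Parity.** -/
theorem parity {u R : Multiset (ZMod m)} (hR : ∀ a ∈ R, addOrderOf a = 3 ∨ addOrderOf a = 4)
    (hs : Rel fun a => (((u + u + R).count a : ℕ) : ℤ)) :
    Even (R.filter fun a => addOrderOf a = 3).card ∧
      Even (R.filter fun a => addOrderOf a = 4).card := by
  classical
  refine even_of_dist R hR fun Q _ c hc hev h2 => ?_
  set z : ZMod m → ℤ := fun a => od (fun b => ((u.count b : ℕ) : ℤ)) a + ((R.count a : ℕ) : ℤ)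
    with hz
  have hod : ∀ (P : Type) [AddCommGroup P] (c : ZMod m → P),
      ∑ a, od (fun b => ((u.count b : ℕ) : ℤ)) a • c a = (u.map fun a => c a - c (-a)).sum := by
    intro P _ c
    rw [← sum_count u fun a => c a - c (-a)]
    unfold od
    simp only [sub_smul, smul_sub]
    rw [sum_sub_distrib, sum_sub_distrib]
    congr 1
    refine Fintype.sum_equiv (Equiv.neg _) _ _ fun a => ?_
    simp only [Equiv.neg_apply]
    rw [neg_neg]
  have h1 := torsion_free (x := z) (fun φ hφ => ?_) Q c hc
  · have h3 : ∑ a, z a • c a = (u.map fun a => c a - c (-a)).sum + (R.map c).sum := by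
      rw [← hod, ← sum_count R c, ← sum_add_distrib]
      refine sum_congr rfl fun a _ => ?_
      rw [hz]
      exact add_smul _ _ _
    rw [h3] at h1
    have h4 : (u.map fun a => c a - c (-a)).sum = 0 := by
      have : (u.map fun a => c a - c (-a)) = u.map fun _ => (0 : Q) :=
        Multiset.map_congr rfl fun a _ => by rw [hev, sub_self]
      rw [this]
      simp
    rwa [h4, zero_add] at h1
  · have hodd : OddDist (fun a => φ a - φ (-a)) := by
      refine ⟨fun a => by rw [neg_neg]; ring, fun a ha => ?_, fun p e hp hpe a => ?_⟩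
      · have h3 : -a = a := by linear_combination -ha
        rw [h3, sub_self]
      · rw [sum_sub_distrib, hφ.dist p e hp hpe]
        have h3 := hφ.dist p e hp hpe (-a)
        have h4 : -((p : ZMod m) * a) = (p : ZMod m) * -a := by ring
        rw [h4, ← h3]
        congr 1
        have hcop : (p - 1).Coprime p := by
          have h7 : p - 1 + 1 = p := Nat.sub_add_cancel hp.one_lt.le
          have h6 : (p - 1).Coprime (p - 1 + 1) := by
            rw [Nat.coprime_self_add_right]
            exact Nat.coprime_one_right _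
          rwa [h7] at h6
        rw [← coset_sum_coprime φ hpe hcop]
        refine sum_congr rfl fun i _ => ?_
        congr 1
        rw [Nat.cast_sub hp.one_lt.le, Nat.cast_one]
        linear_combination -(i : ZMod m) * mul_cast_zero hpe
    have h3 := rel_rat hs hodd
    have h4 : ∑ a, (((((u + u + R).count a : ℕ) : ℤ)) : ℚ) * (φ a - φ (-a)) =
        ((u + u + R).map fun a => φ a - φ (-a)).sum := by
      rw [← sum_count]
      exact sum_congr rfl fun a _ => by rw [zsmul_eq_mul]
    rw [h4, Multiset.map_add, Multiset.sum_add, Multiset.map_add, Multiset.sum_add] at h3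
    have h5 : (R.map fun a => φ a - φ (-a)).sum = 2 * (R.map φ).sum := by
      rw [← Multiset.sum_map_mul_left]
      congr 1
      refine Multiset.map_congr rfl fun a ha => ?_
      have := hφ.neg34 (hR a ha)
      linarith
    have h6 : ∑ a, (z a : ℚ) * φ a = (u.map fun a => φ a - φ (-a)).sum + (R.map φ).sum := by
      rw [← hod, ← sum_count R φ, ← sum_add_distrib]
      refine sum_congr rfl fun a _ => ?_
      rw [hz]
      simp only [zsmul_eq_mul]
      push_cast
      ring
    rw [h6]
    linarith

/-- multisets of elements which are pairwise equal or opposite -/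
lemma split_aux {P : ZMod m → Prop} (hP : ∀ a b, P a → P b → b = a ∨ b = -a) :
    ∀ (n : ℕ) (R : Multiset (ZMod m)), R.card = n → (∀ a ∈ R, P a) → Even n →
      ∃ T Q : Multiset (ZMod m), R = T + T + (Q + Q.map fun a => -a) ∧ (∀ a ∈ T, P a) ∧
        ∀ a ∈ Q, P a := by
  intro n
  induction n using Nat.strong_induction_on with
  | _ n ih =>
    intro R hR hRP hn
    by_cases h0 : n = 0
    · subst h0
      rw [Multiset.card_eq_zero] at hR
      exact ⟨0, 0, by simp [hR], by simp, by simp⟩
    obtain ⟨k, hk⟩ := hn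
    obtain ⟨a, ha⟩ := Multiset.card_pos_iff_exists_mem.mp (by omega : 0 < R.card)
    obtain ⟨R1, rfl⟩ := Multiset.exists_cons_of_mem ha
    rw [Multiset.card_cons] at hR
    obtain ⟨b, hb⟩ := Multiset.card_pos_iff_exists_mem.mp (by omega : 0 < R1.card)
    obtain ⟨R2, rfl⟩ := Multiset.exists_cons_of_mem hb
    rw [Multiset.card_cons] at hR
    obtain ⟨T, Q, hTQ, hT, hQ⟩ := ih (n - 2) (by omega) R2 (by omega)
      (fun x hx => hRP x (Multiset.mem_cons_of_mem (Multiset.mem_cons_of_mem hx)))
      ⟨k - 1, by omega⟩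
    have hPa := hRP _ (Multiset.mem_cons_self _ _)
    have hPb := hRP _ (Multiset.mem_cons_of_mem (Multiset.mem_cons_self _ _))
    rcases hP _ _ hPa hPb with h | h
    · refine ⟨a ::ₘ T, Q, ?_, ?_, hQ⟩
      · rw [h, hTQ]
        simp only [← Multiset.singleton_add]
        abel
      · intro x hx
        rcases Multiset.mem_cons.mp hx with rfl | hx
        · exact hPa
        · exact hT x hx
    · refine ⟨T, a ::ₘ Q, ?_, hT, ?_⟩
      · rw [h, hTQ, Multiset.map_cons]
        simp only [← Multiset.singleton_add]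
        abel
      · intro x hx
        rcases Multiset.mem_cons.mp hx with rfl | hx
        · exact hPa
        · exact hQ x hx

/-- **Splitting.** -/
theorem split {R : Multiset (ZMod m)} (hR : ∀ a ∈ R, addOrderOf a = 3 ∨ addOrderOf a = 4)
    (h3 : Even (R.filter fun a => addOrderOf a = 3).card)
    (h4 : Even (R.filter fun a => addOrderOf a = 4).card) :
    ∃ T Q : Multiset (ZMod m), R = T + T + (Q + Q.map fun a => -a) ∧ (∀ a ∈ T, a ≠ 0) ∧
      ∀ a ∈ Q, a ≠ 0 := by
  obtain ⟨T3, Q3, e3, hT3, hQ3⟩ := split_aux (P := fun a : ZMod m => addOrderOf a = 3)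
    (fun a b ha hb => eq_or_neg3 ha hb) _ (R.filter fun a => addOrderOf a = 3) rfl
    (fun a ha => (Multiset.mem_filter.mp ha).2) h3
  obtain ⟨T4, Q4, e4, hT4, hQ4⟩ := split_aux (P := fun a : ZMod m => addOrderOf a = 4)
    (fun a b ha hb => eq_or_neg4 ha hb) _ (R.filter fun a => addOrderOf a = 4) rfl
    (fun a ha => (Multiset.mem_filter.mp ha).2) h4
  have hne : ∀ a : ZMod m, (addOrderOf a = 3 ∨ addOrderOf a = 4) → a ≠ 0 := by
    rintro a h rfl
    rw [addOrderOf_zero] at h
    omega
  refine ⟨T3 + T4, Q3 + Q4, ?_, fun a ha => ?_, fun a ha => ?_⟩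
  · have h1 : R = (R.filter fun a => addOrderOf a = 3) + (R.filter fun a => addOrderOf a = 4) := by
      have h2 := Multiset.filter_add_not (fun a : ZMod m => addOrderOf a = 3) R
      conv_lhs => rw [← h2]
      congr 1
      refine Multiset.filter_congr fun a ha => ?_
      rcases hR a ha with h | h
      · simp [h]
      · simp [h]
    rw [h1, e3, e4, Multiset.map_add]
    abel
  · rcases Multiset.mem_add.mp ha with h | h
    · exact hne a (Or.inl (hT3 a h))
    · exact hne a (Or.inr (hT4 a h))
  · rcases Multiset.mem_add.mp ha with h | h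
    · exact hne a (Or.inl (hQ3 a h))
    · exact hne a (Or.inr (hQ4 a h))

end Pool.Agent.Q59.TW
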