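import Mathlib
import Pool.Agent.Q59.TW.Main

/-!
# The distribution of the cyclotomic numbers modulo squares
-/

namespace Pool.Agent.Q59.TW

open Finset Polynomial

set_option linter.unusedSectionVars false

section Field

variable (m : ℕ) [NeZero m] (K : Type) [Field K] [CharZero K] [Algebra ℚ K]
  [IsCyclotomicExtension {m} ℚ K]

/-- the root of unity -/
noncomputable def zt : K := IsCyclotomicExtension.zeta m ℚ K

lemma zt_prim : IsPrimitiveRoot (zt m K) m := IsCyclotomicExtension.zeta_spec m ℚ _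

variable {m} {K}

variable (K) in
/-- the powers -/
noncomputable def zz (a : ZMod m) : K := zt m K ^ a.val

lemma zz_natCast (k : ℕ) : zz K (k : ZMod m) = zt m K ^ k := by
  unfold zz
  rw [ZMod.val_natCast]
  conv_rhs => rw [← Nat.mod_add_div k m, pow_add, pow_mul, (zt_prim m K).pow_eq_one, one_pow, mul_one]

lemma zz_add (a b : ZMod m) : zz K (a + b) = zz K a * zz K b := by
  obtain ⟨k, rfl⟩ := ZMod.natCast_zmod_surjective a
  obtain ⟨l, rfl⟩ := ZMod.natCast_zmod_surjective b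
  rw [← Nat.cast_add, zz_natCast, zz_natCast, zz_natCast, pow_add]

lemma zz_zero : zz K (0 : ZMod m) = 1 := by
  unfold zz
  rw [ZMod.val_zero, pow_zero]

lemma zz_mul (k : ℕ) (a : ZMod m) : zz K ((k : ZMod m) * a) = zz K a ^ k := by
  induction k with
  | zero => simp [zz_zero]
  | succ k ih =>
    rw [Nat.cast_succ, add_mul, one_mul, zz_add, ih, pow_succ]

lemma zz_ne_zero (a : ZMod m) : zz K a ≠ 0 := pow_ne_zero _ ((zt_prim m K).ne_zero (NeZero.ne m))

lemma zz_neg (a : ZMod m) : zz K (-a) = (zz K a)⁻¹ := by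
  have h1 := zz_add (K := K) a (-a)
  rw [add_neg_cancel, zz_zero] at h1
  exact (eq_inv_of_mul_eq_one_right h1.symm)

lemma zz_eq_one {a : ZMod m} (h : zz K a = 1) : a = 0 := by
  have h1 := (zt_prim m K).dvd_of_pow_eq_one a.val h
  have h2 : a.val = 0 := Nat.eq_zero_of_dvd_of_lt h1 (ZMod.val_lt a)
  exact (ZMod.val_eq_zero a).mp h2

lemma one_sub_ne {a : ZMod m} (h : a ≠ 0) : 1 - zz K a ≠ 0 := fun h1 =>
  h (zz_eq_one (sub_eq_zero.mp h1).symm)

lemma zz_finOrder (a : ZMod m) : IsOfFinOrder (zz K a) := by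
  refine isOfFinOrder_iff_pow_eq_one.mpr ⟨m, NeZero.pos m, ?_⟩
  unfold zz
  rw [← pow_mul, mul_comm, pow_mul, (zt_prim m K).pow_eq_one, one_pow]

lemma zz_prim {p e : ℕ} (_ : 0 < p) (hpe : p * e = m) : IsPrimitiveRoot (zz K (e : ZMod m)) p := by
  rw [zz_natCast]
  exact (zt_prim m K).pow (NeZero.pos m) (by rw [← hpe, mul_comm])

/-- the product over a coset -/
lemma prod_coset {p e : ℕ} (hp : 0 < p) (hpe : p * e = m) (a : ZMod m) :
    ∏ i ∈ range p, (1 - zz K (a + (i : ZMod m) * (e : ZMod m))) = 1 - zz K ((p : ZMod m) * a) := by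
  have h1 := X_pow_sub_C_eq_prod (zz_prim hp hpe) hp (α := zz K a) rfl
  have h2 := congrArg (Polynomial.eval 1) h1
  simp only [eval_sub, eval_pow, eval_X, one_pow, eval_C, eval_prod] at h2
  rw [zz_mul, h2]
  refine prod_congr rfl fun i _ => ?_
  rw [zz_add, zz_mul, mul_comm]

/-- the product over the nonzero elements -/
lemma prod_zero {p e : ℕ} (hp : 0 < p) (hpe : p * e = m) :
    ∏ i ∈ range (p - 1), (1 - zz K (((i + 1 : ℕ) : ZMod m) * (e : ZMod m))) = p := by
  obtain ⟨n, rfl⟩ : ∃ n, p = n + 1 := ⟨p - 1, by omega⟩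
  rw [Nat.add_sub_cancel]
  have h1 := IsPrimitiveRoot.prod_one_sub_pow_eq_order (zz_prim (K := K) hp hpe)
  rw [Nat.cast_succ, ← h1]
  exact prod_congr rfl fun i _ => by rw [zz_mul (K := K)]

/-- the subgroup generated by the rational numbers, the roots of unity and the squares -/
def HH (K : Type) [Field K] [Algebra ℚ K] : Subgroup Kˣ where
  carrier := {x | ∃ (q : ℚˣ) (r : Kˣ) (y : Kˣ), IsOfFinOrder r ∧
    x = Units.map (algebraMap ℚ (K)).toMonoidHom q * r * (y * y)}
  one_mem' := ⟨1, 1, 1, IsOfFinOrder.one, by simp⟩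
  mul_mem' := by
    rintro x x' ⟨q, r, y, hr, rfl⟩ ⟨q', r', y', hr', rfl⟩
    refine ⟨q * q', r * r', y * y', hr.mul hr', ?_⟩
    rw [map_mul]
    simp only [mul_assoc, mul_comm, mul_left_comm]
  inv_mem' := by
    rintro x ⟨q, r, y, hr, rfl⟩
    refine ⟨q⁻¹, r⁻¹, y⁻¹, hr.inv, ?_⟩
    rw [map_inv]
    simp only [mul_inv]

/-- the group of the classes -/
abbrev QH (K : Type) [Field K] [Algebra ℚ K] : Type := Additive (Kˣ ⧸ HH K)

open Classical in
variable (K) in
/-- the classes of the cyclotomic numbers -/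
noncomputable def cl (a : ZMod m) : QH K :=
  if h : a = 0 then 0 else Additive.ofMul (QuotientGroup.mk (Units.mk0 (1 - zz K a) (one_sub_ne h)))

lemma cl_zero : cl K (0 : ZMod m) = 0 := by
  unfold cl
  rw [dif_pos rfl]

lemma cl_of_ne {a : ZMod m} (h : a ≠ 0) :
    cl K a = Additive.ofMul (QuotientGroup.mk (Units.mk0 (1 - zz K a) (one_sub_ne h))) := by
  unfold cl
  rw [dif_neg h]

lemma square_mem (y : Kˣ) : y * y ∈ HH K := ⟨1, 1, y, IsOfFinOrder.one, by simp⟩

lemma root_mem {r : Kˣ} (hr : IsOfFinOrder r) : r ∈ HH K := ⟨1, r, 1, hr, by simp⟩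

lemma rat_mem {x : Kˣ} {n : ℕ} (h : (x : K) = n) : x ∈ HH K := by
  have hn : (n : ℚ) ≠ 0 := by
    intro h0
    have h1 : n = 0 := by exact_mod_cast h0
    subst h1
    exact x.ne_zero (by rw [h]; simp)
  refine ⟨Units.mk0 (n : ℚ) hn, 1, 1, IsOfFinOrder.one, ?_⟩
  apply Units.ext
  rw [h]
  simp

/-- the classes have the order two -/
lemma two_cl (c : QH K) : c + c = 0 := by
  obtain ⟨x, rfl⟩ := Additive.ofMul.surjective c
  induction x using QuotientGroup.induction_on with
  | H x =>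
    rw [← ofMul_mul, ← QuotientGroup.mk_mul]
    exact congrArg Additive.ofMul ((QuotientGroup.eq_one_iff _).mpr (square_mem x))

/-- the classes are even -/
lemma cl_neg (a : ZMod m) : cl K (-a) = cl K a := by
  by_cases h : a = 0
  · subst h
    rw [neg_zero]
  have h' : -a ≠ 0 := neg_ne_zero.mpr h
  rw [cl_of_ne h, cl_of_ne h']
  congr 1
  rw [QuotientGroup.eq]
  have h1 : (Units.mk0 (1 - zz K (-a)) (one_sub_ne h'))⁻¹ * Units.mk0 (1 - zz K a) (one_sub_ne h) =
      Units.mk0 (-zz K a) (neg_ne_zero.mpr (zz_ne_zero a)) := by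
    rw [inv_mul_eq_iff_eq_mul]
    apply Units.ext
    simp only [Units.val_mul, Units.val_mk0]
    rw [zz_neg]
    have := zz_ne_zero (K := K) a
    field_simp
    ring
  rw [h1]
  apply root_mem
  obtain ⟨n, hn, hn'⟩ := isOfFinOrder_iff_pow_eq_one.mp (zz_finOrder (K := K) a)
  refine isOfFinOrder_iff_pow_eq_one.mpr ⟨2 * n, by omega, ?_⟩
  apply Units.ext
  rw [Units.val_pow_eq_pow_val, Units.val_mk0, Units.val_one, pow_mul, neg_sq, ← pow_mul, mul_comm,
    pow_mul, hn', one_pow]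

/-- a product of cyclotomic numbers -/
lemma cl_sum {ι : Type*} (s : Finset ι) (f : ι → ZMod m) (hf : ∀ i ∈ s, f i ≠ 0) {x : Kˣ}
    (hx : (x : K) = ∏ i ∈ s, (1 - zz K (f i))) :
    ∑ i ∈ s, cl K (f i) = Additive.ofMul (QuotientGroup.mk x) := by
  classical
  induction s using Finset.induction_on generalizing x with
  | empty =>
    have h1 : x = 1 := Units.ext (by rw [hx]; simp)
    rw [h1, sum_empty]
    rfl
  | insert i s hi ih =>
    rw [sum_insert hi]
    have h0 := hf i (mem_insert_self i s)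
    have hs : ∏ j ∈ s, (1 - zz K (f j)) ≠ 0 := prod_ne_zero_iff.mpr fun j hj =>
      one_sub_ne (hf j (mem_insert_of_mem hj))
    rw [ih (fun j hj => hf j (mem_insert_of_mem hj)) (x := Units.mk0 _ hs) rfl, cl_of_ne h0,
      ← ofMul_mul, ← QuotientGroup.mk_mul]
    congr 2
    apply Units.ext
    rw [Units.val_mul, Units.val_mk0, Units.val_mk0, hx, prod_insert hi]

/-- **The cyclotomic numbers modulo squares form a distribution.** -/
theorem cl_dist : Dist0 (cl K (m := m)) := by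
  refine ⟨cl_zero, fun p e hp hpe a => ?_⟩
  by_cases hpa : (p : ZMod m) * a = 0
  · rw [hpa, cl_zero]
    -- a is a multiple of e
    have h1 : ∃ j : ℕ, a = (j : ZMod m) * (e : ZMod m) := by
      obtain ⟨k, rfl⟩ := ZMod.natCast_zmod_surjective a
      rw [← Nat.cast_mul, ZMod.natCast_eq_zero_iff, ← hpe] at hpa
      obtain ⟨j, hj⟩ := Nat.dvd_of_mul_dvd_mul_left hp.pos hpa
      exact ⟨j, by rw [hj]; push_cast; ring⟩
    obtain ⟨j, rfl⟩ := h1
    have h2 := Pool.Agent.H916R2.coset_sum_shift_mul (cl K (m := m)) hpe 0 j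
    simp only [zero_add] at h2
    rw [h2]
    obtain ⟨n, hn⟩ : ∃ n, p = n + 1 := ⟨p - 1, by have := hp.pos; omega⟩
    rw [hn, sum_range_succ']
    have h3 : ((0 : ℕ) : ZMod m) * (e : ZMod m) = 0 := by simp
    rw [h3, cl_zero]
    refine (add_zero (M := QH K) _).trans ?_
    have hp0 : ((p : ℕ) : K) ≠ 0 := by
      exact_mod_cast hp.ne_zero
    have h4 : ∏ i ∈ range n, (1 - zz K (((i + 1 : ℕ) : ZMod m) * (e : ZMod m))) = p := by
      have := prod_zero (K := K) hp.pos hpe
      rw [hn, Nat.add_sub_cancel] at this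
      rw [this, hn]
    have h5 := cl_sum (m := m) (range n) (fun i => ((i + 1 : ℕ) : ZMod m) * (e : ZMod m)) ?_
      (x := Units.mk0 (p : K) hp0) h4.symm
    · rw [h5]
      exact congrArg Additive.ofMul ((QuotientGroup.eq_one_iff _).mpr (rat_mem rfl))
    · intro i hi h6
      have h7 : (1 : K) - zz K (((i + 1 : ℕ) : ZMod m) * (e : ZMod m)) = 0 := by
        rw [h6, zz_zero, sub_self]
      rw [prod_eq_zero hi h7] at h4
      exact hp0 h4.symm
  · have h1 : ∀ i ∈ range p, a + (i : ZMod m) * (e : ZMod m) ≠ 0 := by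
      intro i _ h2
      apply hpa
      have h3 : (p : ZMod m) * (e : ZMod m) = 0 := by
        rw [← Nat.cast_mul, hpe, ZMod.natCast_self]
      linear_combination (p : ZMod m) * h2 - (i : ZMod m) * h3
    rw [cl_sum (range p) _ h1 (x := Units.mk0 _ (one_sub_ne hpa)) (prod_coset hp.pos hpe a).symm,
      cl_of_ne hpa]

end Field

end Pool.Agent.Q59.TW
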